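import Mathlib
import Pool.Agent.TH858.CB.Exch
import Pool.Agent.TH858.CB.Main

/-!
# Fourier analysis on `ℤ/N`

The weights `wt X g = |∑_{y ∈ X} e(g y / N)|²`.
-/

set_option autoImplicit false

namespace Pool.Agent.TH858.GP

open Finset Complex

variable {N : ℕ} [NeZero N]

/-- The standard character. -/
noncomputable abbrev ψ (c : ZMod N) : ℂ := ZMod.stdAddChar c

lemma ψ_add (a b : ZMod N) : ψ (a + b) = ψ a * ψ b := AddChar.map_add_eq_mul _ a b

lemma ψ_zero : ψ (0 : ZMod N) = 1 := AddChar.map_zero_eq_one _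

lemma ψ_norm (a : ZMod N) : ‖ψ a‖ = 1 := by
  unfold ψ
  rw [ZMod.stdAddChar_apply]
  exact Circle.norm_coe _

lemma ψ_neg (a : ZMod N) : ψ (-a) = (starRingEnd ℂ) (ψ a) := by
  have h1 : ψ (-a) * ψ a = 1 := by rw [← ψ_add, neg_add_cancel, ψ_zero]
  have h2 : (starRingEnd ℂ) (ψ a) * ψ a = 1 := by
    rw [mul_comm, Complex.mul_conj, Complex.normSq_eq_norm_sq, ψ_norm]; norm_num
  have h3 : ψ a ≠ 0 := by
    intro h; rw [h, mul_zero] at h1; exact zero_ne_one h1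
  exact mul_right_cancel₀ h3 (h1.trans h2.symm)

/-- The weight. -/
noncomputable def wt (X : Finset (ZMod N)) (g : ZMod N) : ℝ := ‖∑ y ∈ X, ψ (g * y)‖ ^ 2

lemma wt_nonneg (X : Finset (ZMod N)) (g : ZMod N) : 0 ≤ wt X g := by unfold wt; positivity

/-- The number of pairs with a given difference. -/
def cnt (X : Finset (ZMod N)) (z : ZMod N) : ℕ := ((X ×ˢ X).filter fun p => p.1 - p.2 + z = 0).card

lemma wt_expand (X : Finset (ZMod N)) (g : ZMod N) :
    ((wt X g : ℝ) : ℂ) = ∑ p ∈ X ×ˢ X, ψ (g * (p.1 - p.2)) := by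
  unfold wt
  have h1 : ((‖∑ y ∈ X, ψ (g * y)‖ ^ 2 : ℝ) : ℂ) =
      (∑ y ∈ X, ψ (g * y)) * (starRingEnd ℂ) (∑ y ∈ X, ψ (g * y)) := by
    rw [Complex.mul_conj, Complex.normSq_eq_norm_sq]
  rw [h1, map_sum, sum_mul_sum, ← sum_product']
  refine sum_congr rfl fun p _ => ?_
  rw [← ψ_neg, ← ψ_add]
  congr 1
  ring

lemma fourier (X : Finset (ZMod N)) (z : ZMod N) :
    ∑ g : ZMod N, wt X g * (ψ (g * z)).re = N * cnt X z := by
  have h1 : ∑ g : ZMod N, ((wt X g : ℝ) : ℂ) * ψ (g * z) = (N : ℂ) * (cnt X z : ℂ) := by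
    calc ∑ g : ZMod N, ((wt X g : ℝ) : ℂ) * ψ (g * z)
        = ∑ g : ZMod N, ∑ p ∈ X ×ˢ X, ψ (g * (p.1 - p.2 + z)) := by
          refine sum_congr rfl fun g _ => ?_
          rw [wt_expand, sum_mul]
          refine sum_congr rfl fun p _ => ?_
          rw [← ψ_add]; congr 1; ring
      _ = ∑ p ∈ X ×ˢ X, ∑ g : ZMod N, ψ (g * (p.1 - p.2 + z)) := sum_comm
      _ = ∑ p ∈ X ×ˢ X, (if p.1 - p.2 + z = 0 then (N : ℂ) else 0) := by
          refine sum_congr rfl fun p _ => ?_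
          have := AddChar.sum_mulShift (R' := ℂ) (p.1 - p.2 + z) (ZMod.isPrimitive_stdAddChar N)
          rw [ZMod.card] at this
          rw [this]
          split_ifs <;> simp
      _ = (N : ℂ) * (cnt X z : ℂ) := by
          rw [← sum_filter, sum_const, nsmul_eq_mul, mul_comm]
          rfl
  have h2 := congrArg Complex.re h1
  rw [Complex.re_sum] at h2
  have h3 : ((N : ℂ) * (cnt X z : ℂ)).re = N * cnt X z := by
    rw [← Nat.cast_mul, Complex.natCast_re]; push_cast; rfl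
  rw [h3] at h2
  rw [← h2]
  refine sum_congr rfl fun g _ => ?_
  rw [Complex.re_ofReal_mul]

lemma cnt_zero (X : Finset (ZMod N)) : cnt X 0 = X.card := by
  unfold cnt
  have : ((X ×ˢ X).filter fun p : ZMod N × ZMod N => p.1 - p.2 + 0 = 0) = X.image (fun y => (y, y)) := by
    ext ⟨a, b⟩
    simp only [mem_filter, mem_product, mem_image, Prod.mk.injEq, add_zero, sub_eq_zero]
    constructor
    · rintro ⟨⟨ha, _⟩, rfl⟩
      exact ⟨a, ha, rfl, rfl⟩
    · rintro ⟨y, hy, rfl, rfl⟩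
      exact ⟨⟨hy, hy⟩, rfl⟩
  rw [this, card_image_of_injective _ (fun a b h => (Prod.mk.inj h).1)]

lemma sum_wt (X : Finset (ZMod N)) : ∑ g : ZMod N, wt X g = N * X.card := by
  have := fourier X 0
  rw [cnt_zero] at this
  rw [← this]
  refine sum_congr rfl fun g _ => ?_
  rw [mul_zero, ψ_zero, Complex.one_re, mul_one]

/-- Explicit form of the character. -/
lemma ψ_eq (c : ZMod N) (z : ℤ) :
    ψ c = Complex.exp ((2 * Real.pi * (((c.val : ℝ) / N + z : ℝ))) * I) := by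
  have h1 : ψ c = Complex.exp (2 * Real.pi * I * ((c.val : ℤ) : ℂ) / N) := by
    have h2 : ((c.val : ℤ) : ZMod N) = c := by simp
    have h3 := ZMod.stdAddChar_coe (N := N) (c.val : ℤ)
    rw [h2] at h3
    exact h3
  rw [h1]
  have h4 : ((2 * Real.pi * (((c.val : ℝ) / N + z : ℝ))) * I : ℂ) =
      2 * Real.pi * I * ((c.val : ℤ) : ℂ) / N + z * (2 * Real.pi * I) := by
    push_cast
    ring
  have h5 : (((2 : ℝ) * Real.pi * (((c.val : ℝ) / N + z : ℝ)) : ℝ) * I : ℂ) =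
      ((2 * Real.pi * (((c.val : ℝ) / N + z : ℝ))) * I : ℂ) := by push_cast; ring
  rw [h4, Complex.exp_add, Complex.exp_int_mul_two_pi_mul_I, mul_one]

lemma re_ψ_eq (c : ZMod N) (z : ℤ) : (ψ c).re = Real.cos (2 * Real.pi * ((c.val : ℝ) / N + z)) := by
  rw [ψ_eq c z]
  have : ((2 * Real.pi * (((c.val : ℝ) / N + z : ℝ))) * I : ℂ) =
      ((2 * Real.pi * ((c.val : ℝ) / N + z) : ℝ) : ℂ) * I := by push_cast; ring
  rw [this, Complex.exp_ofReal_mul_I_re]

/-- `|e(c/N) - 1| ≥ 4 ‖c/N‖`. -/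
lemma four_nn_le (c : ZMod N) : 4 * CB.nn c ≤ ‖ψ c - 1‖ := by
  obtain ⟨θ, hθ⟩ : ∃ θ : ℝ, θ = (c.val : ℝ) / N + ((-round ((c.val : ℝ) / N) : ℤ) : ℝ) := ⟨_, rfl⟩
  have hnn : CB.nn c = |θ| := by
    rw [hθ]
    unfold CB.nn CB.nint
    congr 1
    push_cast
    ring
  have hθ2 : |θ| ≤ 1 / 2 := by
    rw [← hnn]
    exact abs_sub_round _
  have h1 : ψ c = Complex.exp ((2 * (Real.pi * θ) : ℝ) * I) := by
    rw [ψ_eq c (-round ((c.val : ℝ) / N)), ← hθ]
    congr 1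
    push_cast
    ring
  have h2 : ‖ψ c - 1‖ ^ 2 = 4 * Real.sin (Real.pi * θ) ^ 2 := by
    rw [h1, ← Complex.normSq_eq_norm_sq, Complex.normSq_apply]
    simp only [Complex.sub_re, Complex.sub_im, Complex.exp_ofReal_mul_I_re, Complex.exp_ofReal_mul_I_im,
      Complex.one_re, Complex.one_im, sub_zero]
    rw [Real.cos_two_mul, Real.sin_two_mul]
    have := Real.sin_sq_add_cos_sq (Real.pi * θ)
    nlinarith [this]
  have h3 : 2 * |θ| ≤ |Real.sin (Real.pi * θ)| := by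
    have h4 : Real.pi * |θ| ≤ Real.pi / 2 := by
      nlinarith [Real.pi_pos]
    have h5 := Real.mul_le_sin (x := Real.pi * |θ|) (by positivity) h4
    have h6 : 2 / Real.pi * (Real.pi * |θ|) = 2 * |θ| := by
      field_simp
    rw [h6] at h5
    refine h5.trans ?_
    rcases abs_cases θ with ⟨h7, _⟩ | ⟨h7, _⟩
    · rw [h7]; exact le_abs_self _
    · rw [h7, mul_neg, Real.sin_neg]; exact neg_le_abs _
  have h4 : (4 * |θ|) ^ 2 ≤ ‖ψ c - 1‖ ^ 2 := by
    rw [h2]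
    have h5 : (2 * |θ|) ^ 2 ≤ Real.sin (Real.pi * θ) ^ 2 := by
      rw [← sq_abs (Real.sin (Real.pi * θ))]
      exact pow_le_pow_left₀ (by positivity) h3 2
    nlinarith
  rw [hnn]
  exact le_of_sq_le_sq h4 (norm_nonneg _)

/-- The sum of cosines. -/
lemma sum_cos (c : ZMod N) (η : ℝ) (M : ℕ) (hη : 0 < η) (hM : 1 ≤ η * M) (hc : η ≤ CB.nn c) :
    (M : ℝ) / 2 ≤ ∑ j ∈ Finset.range M, (1 - (ψ (((j + 1 : ℕ) : ZMod N) * c)).re) := by
  have hζ : ∀ j : ℕ, ψ (((j + 1 : ℕ) : ZMod N) * c) = ψ c ^ (j + 1) := by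
    intro j
    induction j with
    | zero => simp
    | succ j ih =>
      have : (((j + 1 + 1 : ℕ) : ZMod N) * c) = ((j + 1 : ℕ) : ZMod N) * c + c := by push_cast; ring
      rw [this, ψ_add, ih]
      ring
  have hne : ψ c - 1 ≠ 0 := by
    intro h
    have := four_nn_le c
    rw [h, norm_zero] at this
    linarith
  have h1 : ‖∑ j ∈ Finset.range M, ψ (((j + 1 : ℕ) : ZMod N) * c)‖ ≤ M / 2 := by
    have e : ∑ j ∈ Finset.range M, ψ (((j + 1 : ℕ) : ZMod N) * c) = ψ c * ((ψ c ^ M - 1) / (ψ c - 1)) := by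
      rw [← geom_sum_eq (sub_ne_zero.mp hne), mul_sum]
      refine sum_congr rfl fun j _ => ?_
      rw [hζ]; ring
    rw [e, norm_mul, ψ_norm, one_mul, norm_div]
    have h2 : ‖ψ c ^ M - 1‖ ≤ 2 := by
      calc ‖ψ c ^ M - 1‖ ≤ ‖ψ c ^ M‖ + ‖(1 : ℂ)‖ := norm_sub_le _ _
        _ = 2 := by rw [norm_pow, ψ_norm, one_pow, norm_one]; norm_num
    have h3 : 4 * η ≤ ‖ψ c - 1‖ := by linarith [four_nn_le c]
    have hpos : 0 < ‖ψ c - 1‖ := norm_pos_iff.mpr hne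
    rw [div_le_iff₀ hpos]
    have hM0 : (0 : ℝ) ≤ M := Nat.cast_nonneg M
    nlinarith
  have h2 : (∑ j ∈ Finset.range M, ψ (((j + 1 : ℕ) : ZMod N) * c)).re ≤ M / 2 :=
    (Complex.re_le_norm _).trans h1
  rw [Complex.re_sum] at h2
  rw [sum_sub_distrib, sum_const, card_range, nsmul_eq_mul, mul_one]
  linarith

end Pool.Agent.TH858.GP
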