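import Mathlib
import Pool.Agent.TH858.GP.Four

/-!
# Characters which are small on a progression and detect a direction
-/

set_option autoImplicit false

namespace Pool.Agent.TH858.GP

open Finset Complex

variable {N n : ℕ}

/-- The value of an integer vector. -/
def ev (a : Fin n → ZMod N) (m : Fin n → ℤ) : ZMod N := ∑ i, (m i : ZMod N) * a i

/-- The integer box. -/
noncomputable def box (S : Fin n → ℕ) : Finset (Fin n → ℤ) := Fintype.piFinset fun i => Finset.Icc (-(S i : ℤ)) (S i)

lemma mem_box (S : Fin n → ℕ) (m : Fin n → ℤ) : m ∈ box S ↔ ∀ i, |m i| ≤ S i := by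
  unfold box
  rw [Fintype.mem_piFinset]
  simp only [Finset.mem_Icc, abs_le]

lemma ev_add (a : Fin n → ZMod N) (m m' : Fin n → ℤ) : ev a (m + m') = ev a m + ev a m' := by
  unfold ev
  rw [← sum_add_distrib]
  refine sum_congr rfl fun i _ => ?_
  simp [add_mul]

lemma ev_sub (a : Fin n → ZMod N) (m m' : Fin n → ℤ) : ev a (m - m') = ev a m - ev a m' := by
  unfold ev
  rw [← sum_sub_distrib]
  refine sum_congr rfl fun i _ => ?_
  simp [sub_mul]

lemma ev_single (a : Fin n → ZMod N) (i : Fin n) (j : ℤ) : ev a (Pi.single i j) = (j : ZMod N) * a i := by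
  unfold ev
  rw [sum_eq_single i]
  · rw [Pi.single_eq_same]
  · intro k _ hk
    rw [Pi.single_eq_of_ne hk]; simp
  · intro h; exact absurd (mem_univ _) h

/-- The set of values on a box. -/
noncomputable def XX (a : Fin n → ZMod N) (S : Fin n → ℕ) : Finset (ZMod N) := (box S).image (ev a)

lemma card_box (S : Fin n → ℕ) : (box S).card = ∏ i, (2 * S i + 1) := by
  unfold box
  rw [Fintype.card_piFinset]
  refine prod_congr rfl fun i _ => ?_
  rw [Int.card_Icc]
  omega

lemma cnt_ge (a : Fin n → ZMod N) (S : Fin n → ℕ) (hinj : Set.InjOn (ev a) (box S)) (i : Fin n) (j : ℕ)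
    (hj : j ≤ 2 * S i) :
    ((XX a S).card : ℝ) - cnt (XX a S) ((j : ZMod N) * a i) ≤ (XX a S).card * ((j : ℝ) / (2 * S i + 1)) := by
  classical
  obtain ⟨B, hB⟩ : ∃ B : Finset (Fin n → ℤ), B = Fintype.piFinset fun k => Finset.Icc (-(S k : ℤ))
    (if k = i then (S k : ℤ) - j else S k) := ⟨_, rfl⟩
  have hBsub : ∀ m ∈ B, m ∈ box S ∧ m + Pi.single i (j : ℤ) ∈ box S := by
    intro m hm
    rw [hB, Fintype.mem_piFinset] at hm
    constructor
    · unfold box
      rw [Fintype.mem_piFinset]
      intro k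
      have := hm k
      rw [Finset.mem_Icc] at this ⊢
      split_ifs at this with h
      · omega
      · omega
    · unfold box
      rw [Fintype.mem_piFinset]
      intro k
      have := hm k
      rw [Finset.mem_Icc] at this ⊢
      rw [Pi.add_apply]
      split_ifs at this with h
      · subst h; rw [Pi.single_eq_same]; omega
      · rw [Pi.single_eq_of_ne h]; omega
  have hcard1 : (XX a S).card = (box S).card := card_image_of_injOn hinj
  have hcnt : B.card ≤ cnt (XX a S) ((j : ZMod N) * a i) := by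
    unfold cnt
    refine card_le_card_of_injOn (fun m => (ev a m, ev a (m + Pi.single i (j : ℤ)))) ?_ ?_
    · intro m hm
      obtain ⟨h1, h2⟩ := hBsub m hm
      rw [Finset.mem_coe, mem_filter, mem_product]
      refine ⟨⟨mem_image_of_mem _ h1, mem_image_of_mem _ h2⟩, ?_⟩
      change ev a m - ev a (m + Pi.single i (j : ℤ)) + (j : ZMod N) * a i = 0
      rw [ev_add, ev_single]
      push_cast
      ring
    · intro m hm m' hm' h
      exact hinj (hBsub m hm).1 (hBsub m' hm').1 (Prod.mk.inj h).1
  have hBcard : B.card * (2 * S i + 1) = (box S).card * (2 * S i + 1 - j) := by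
    rw [hB, Fintype.card_piFinset, card_box]
    rw [← Finset.prod_erase_mul _ _ (mem_univ i), ← Finset.prod_erase_mul univ (fun i => 2 * S i + 1) (mem_univ i)]
    have h1 : ∏ k ∈ univ.erase i, (Finset.Icc (-(S k : ℤ)) (if k = i then (S k : ℤ) - j else S k)).card =
        ∏ k ∈ univ.erase i, (2 * S k + 1) := by
      refine prod_congr rfl fun k hk => ?_
      rw [if_neg (ne_of_mem_erase hk), Int.card_Icc]
      omega
    rw [h1, if_pos rfl, Int.card_Icc]
    have h2 : ((S i : ℤ) - j + 1 - -(S i : ℤ)).toNat = 2 * S i + 1 - j := by omega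
    rw [h2]
    ring
  have hBr : (B.card : ℝ) * (2 * S i + 1) = (XX a S).card * (2 * S i + 1 - j) := by
    have h1 : ((B.card * (2 * S i + 1) : ℕ) : ℝ) = (((box S).card * (2 * S i + 1 - j) : ℕ) : ℝ) := by rw [hBcard]
    rw [hcard1]
    have h2 : j ≤ 2 * S i + 1 := by omega
    push_cast [Nat.cast_sub h2] at h1
    exact h1
  have hpos : (0 : ℝ) < 2 * S i + 1 := by positivity
  have h3 : (B.card : ℝ) = (XX a S).card * ((2 * S i + 1 - j) / (2 * S i + 1)) := by
    rw [mul_div_assoc', eq_div_iff hpos.ne']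
    exact hBr
  have h4 : (B.card : ℝ) ≤ cnt (XX a S) ((j : ZMod N) * a i) := by exact_mod_cast hcnt
  have h5 : ((XX a S).card : ℝ) * ((j : ℝ) / (2 * S i + 1)) = (XX a S).card - B.card := by
    rw [h3]
    field_simp
    ring
  linarith

variable [NeZero N]

lemma bad_bound (a : Fin n → ZMod N) (S : Fin n → ℕ) (hinj : Set.InjOn (ev a) (box S)) (i : Fin n) (η : ℝ) (M : ℕ)
    (hη : 0 < η) (hM : 1 ≤ η * M) (hMS : M ≤ 2 * S i) :
    ∑ g ∈ univ.filter (fun g : ZMod N => η ≤ CB.nn (g * a i)), wt (XX a S) g ≤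
      N * (XX a S).card * (2 * M / (2 * S i + 1)) := by
  have hM0 : (0 : ℝ) < M := by
    by_contra h
    have : (M : ℝ) = 0 := le_antisymm (not_lt.mp h) (Nat.cast_nonneg M)
    rw [this, mul_zero] at hM
    linarith
  have h1 : (∑ g ∈ univ.filter (fun g : ZMod N => η ≤ CB.nn (g * a i)), wt (XX a S) g) * (M / 2) ≤
      ∑ g : ZMod N, wt (XX a S) g * ∑ j ∈ Finset.range M, (1 - (ψ (((j + 1 : ℕ) : ZMod N) * (g * a i))).re) := by
    rw [sum_mul]
    calc ∑ g ∈ univ.filter (fun g : ZMod N => η ≤ CB.nn (g * a i)), wt (XX a S) g * (M / 2)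
        ≤ ∑ g ∈ univ.filter (fun g : ZMod N => η ≤ CB.nn (g * a i)),
          wt (XX a S) g * ∑ j ∈ Finset.range M, (1 - (ψ (((j + 1 : ℕ) : ZMod N) * (g * a i))).re) := by
          refine sum_le_sum fun g hg => ?_
          refine mul_le_mul_of_nonneg_left ?_ (wt_nonneg _ _)
          exact sum_cos _ η M hη hM (mem_filter.mp hg).2
      _ ≤ _ := by
          refine sum_le_sum_of_subset_of_nonneg (filter_subset _ _) fun g _ _ => ?_
          refine mul_nonneg (wt_nonneg _ _) (sum_nonneg fun j _ => ?_)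
          have := Complex.re_le_norm (ψ (((j + 1 : ℕ) : ZMod N) * (g * a i)))
          rw [ψ_norm] at this
          linarith
  have h2 : ∑ g : ZMod N, wt (XX a S) g * ∑ j ∈ Finset.range M, (1 - (ψ (((j + 1 : ℕ) : ZMod N) * (g * a i))).re) =
      ∑ j ∈ Finset.range M, (N : ℝ) * ((XX a S).card - cnt (XX a S) (((j + 1 : ℕ) : ZMod N) * a i)) := by
    simp_rw [mul_sum]
    rw [sum_comm]
    refine sum_congr rfl fun j _ => ?_
    have e1 := fourier (XX a S) (((j + 1 : ℕ) : ZMod N) * a i)
    have e2 := sum_wt (XX a S)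
    rw [mul_sub, ← e1, ← e2, ← sum_sub_distrib]
    refine sum_congr rfl fun g _ => ?_
    have : (((j + 1 : ℕ) : ZMod N) * (g * a i)) = g * (((j + 1 : ℕ) : ZMod N) * a i) := by ring
    rw [this]
    ring
  have h3 : ∑ j ∈ Finset.range M, (N : ℝ) * ((XX a S).card - cnt (XX a S) (((j + 1 : ℕ) : ZMod N) * a i)) ≤
      ∑ _j ∈ Finset.range M, (N : ℝ) * ((XX a S).card * ((M : ℝ) / (2 * S i + 1))) := by
    refine sum_le_sum fun j hj => ?_
    refine mul_le_mul_of_nonneg_left ?_ (Nat.cast_nonneg N)
    have hjM : j + 1 ≤ M := by have := mem_range.mp hj; omega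
    refine (cnt_ge a S hinj i (j + 1) (by omega)).trans ?_
    refine mul_le_mul_of_nonneg_left ?_ (Nat.cast_nonneg _)
    refine div_le_div_of_nonneg_right ?_ (by positivity)
    exact_mod_cast hjM
  rw [sum_const, card_range, nsmul_eq_mul] at h3
  have h4 := h1.trans (h2.le.trans h3)
  have hpos : (0 : ℝ) < M / 2 := by positivity
  have h5 : (N : ℝ) * (XX a S).card * (2 * M / (2 * S i + 1)) * (M / 2) =
      M * (N * ((XX a S).card * ((M : ℝ) / (2 * S i + 1)))) := by ring
  rw [← h5] at h4
  exact le_of_mul_le_mul_right h4 hpos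

/-- A character which is small at all generators and not near one at `z`. -/
theorem exists_char (a : Fin n → ZMod N) (S : Fin n → ℕ) (hinj : Set.InjOn (ev a) (box S)) (η : Fin n → ℝ)
    (M : Fin n → ℕ) (hη : ∀ i, 0 < η i) (hM : ∀ i, 1 ≤ η i * M i) (hMS : ∀ i, 20 * n * M i ≤ 2 * S i + 1)
    (z : ZMod N) (hz : cnt (XX a S) z = 0) :
    ∃ g : ZMod N, (∀ i, CB.nn (g * a i) < η i) ∧ (ψ (g * z)).re < 1 / 2 := by
  classical
  by_contra hcon
  push Not at hcon
  have hNpos : (0 : ℝ) < N := Nat.cast_pos.mpr (NeZero.pos N)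
  have hXpos : (0 : ℝ) < (XX a S).card := by
    have : (0 : Fin n → ℤ) ∈ box S := by rw [mem_box]; intro i; simp
    exact_mod_cast card_pos.mpr ⟨_, mem_image_of_mem (ev a) this⟩
  set Θ : Finset (ZMod N) := univ.filter fun g => ∀ i, CB.nn (g * a i) < η i with hΘ
  have hcomp : ∑ g ∈ Θᶜ, wt (XX a S) g ≤ N * (XX a S).card / 10 := by
    calc ∑ g ∈ Θᶜ, wt (XX a S) g
        ≤ ∑ g ∈ Θᶜ, ∑ i, (if η i ≤ CB.nn (g * a i) then wt (XX a S) g else 0) := by
          refine sum_le_sum fun g hg => ?_
          rw [mem_compl, hΘ, mem_filter] at hg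
          push Not at hg
          obtain ⟨i, hi⟩ := hg (mem_univ g)
          have h1 : (if η i ≤ CB.nn (g * a i) then wt (XX a S) g else 0) = wt (XX a S) g := if_pos hi
          calc wt (XX a S) g = (if η i ≤ CB.nn (g * a i) then wt (XX a S) g else 0) := h1.symm
            _ ≤ _ := single_le_sum (f := fun i => if η i ≤ CB.nn (g * a i) then wt (XX a S) g else 0)
                (fun k _ => by
                  split_ifs
                  · exact wt_nonneg _ _
                  · exact le_rfl) (mem_univ i)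
      _ ≤ ∑ g : ZMod N, ∑ i, (if η i ≤ CB.nn (g * a i) then wt (XX a S) g else 0) := by
          refine sum_le_sum_of_subset_of_nonneg (subset_univ _) fun g _ _ => sum_nonneg fun i _ => ?_
          split_ifs
          · exact wt_nonneg _ _
          · exact le_rfl
      _ = ∑ i, ∑ g ∈ univ.filter (fun g : ZMod N => η i ≤ CB.nn (g * a i)), wt (XX a S) g := by
          rw [sum_comm]
          refine sum_congr rfl fun i _ => ?_
          rw [sum_filter]
      _ ≤ ∑ i : Fin n, (N : ℝ) * (XX a S).card * (1 / (10 * n)) := by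
          refine sum_le_sum fun i _ => ?_
          have hn : 0 < n := Fin.pos i
          have hnR : (0 : ℝ) < n := by exact_mod_cast hn
          have hMi : 0 < M i := by
            rcases Nat.eq_zero_or_pos (M i) with h | h
            · have := hM i
              rw [h, Nat.cast_zero, mul_zero] at this
              linarith
            · exact h
          have hms := hMS i
          refine (bad_bound a S hinj i (η i) (M i) (hη i) (hM i) (by nlinarith)).trans ?_
          refine mul_le_mul_of_nonneg_left ?_ (by positivity)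
          rw [div_le_div_iff₀ (by positivity) (by positivity)]
          have : ((20 * n * M i : ℕ) : ℝ) ≤ ((2 * S i + 1 : ℕ) : ℝ) := by exact_mod_cast hms
          push_cast at this
          linarith
      _ ≤ N * (XX a S).card / 10 := by
          rw [sum_const, card_univ, Fintype.card_fin, nsmul_eq_mul]
          rcases Nat.eq_zero_or_pos n with h | h
          · subst h; simp; positivity
          · have hnR : (0 : ℝ) < n := by exact_mod_cast h
            apply le_of_eq
            field_simp
  have htot := sum_wt (XX a S)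
  have hsplit : ∑ g ∈ Θ, wt (XX a S) g + ∑ g ∈ Θᶜ, wt (XX a S) g = N * (XX a S).card := by
    rw [sum_add_sum_compl, htot]
  have hF := fourier (XX a S) z
  rw [hz, Nat.cast_zero, mul_zero, ← sum_add_sum_compl Θ] at hF
  have h1 : (1 / 2) * ∑ g ∈ Θ, wt (XX a S) g ≤ ∑ g ∈ Θ, wt (XX a S) g * (ψ (g * z)).re := by
    rw [mul_sum]
    refine sum_le_sum fun g hg => ?_
    have := hcon g (mem_filter.mp hg).2
    nlinarith [wt_nonneg (XX a S) g]
  have h2 : -∑ g ∈ Θᶜ, wt (XX a S) g ≤ ∑ g ∈ Θᶜ, wt (XX a S) g * (ψ (g * z)).re := by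
    rw [← sum_neg_distrib]
    refine sum_le_sum fun g _ => ?_
    have h3 : -1 ≤ (ψ (g * z)).re := by
      have := Complex.abs_re_le_norm (ψ (g * z))
      rw [ψ_norm] at this
      exact (abs_le.mp this).1
    nlinarith [wt_nonneg (XX a S) g]
  have h3 : 0 < (N : ℝ) * (XX a S).card := by positivity
  linarith

end Pool.Agent.TH858.GP
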