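import Mathlib
import Pool.Agent.TH858.CB.Exch

/-!
# The index of the lattice of trivial characters
-/

set_option autoImplicit false

namespace Pool.Agent.TH858.GP

open Finset Matrix

lemma index_span' {ι : Type*} [Fintype ι] [DecidableEq ι] (m : ι → ι → ℤ) (h : (Matrix.of m).det ≠ 0) :
    (Submodule.span ℤ (Set.range m)).toAddSubgroup.index = (Matrix.of m).det.natAbs := by
  have hli : LinearIndependent ℤ m := by
    have := Matrix.linearIndependent_rows_of_det_ne_zero h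
    exact this
  have h1 := Submodule.natAbs_det_basis_change (Pi.basisFun ℤ ι) (Submodule.span ℤ (Set.range m))
    (Module.Basis.span hli)
  have h2 : (Pi.basisFun ℤ ι).det ((↑) ∘ (Module.Basis.span hli)) = (Matrix.of m).det := by
    have h3 : ((↑) ∘ (Module.Basis.span hli) : ι → (ι → ℤ)) = m := by
      funext i
      simp [Module.Basis.span_apply]
    rw [h3, Pi.basisFun_det_apply]
  rw [h2] at h1
  rw [h1]
  rfl

/-- The matrix of the relations. -/
def rel {n : ℕ} (N : ℤ) (a g : Fin n → ℤ) (z : Fin n → Fin n → ℤ) : (Unit ⊕ Fin n) → (Unit ⊕ Fin n) → ℤ :=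
  Matrix.of.symm (Matrix.fromBlocks (Matrix.of fun _ _ => N) (Matrix.of fun _ i => -a i)
    (Matrix.of fun k _ => g k) (Matrix.of z))

lemma det_rel {n : ℕ} (N : ℤ) (hN : N ≠ 0) (a g : Fin n → ℤ) (z : Fin n → Fin n → ℤ)
    (Ξ : Matrix (Fin n) (Fin n) ℝ) (hΞ : ∀ k i, Ξ k i = (g k : ℝ) * a i / N + z k i) :
    (((Matrix.of (rel N a g z)).det : ℤ) : ℝ) = N * Ξ.det := by
  have hNR : (N : ℝ) ≠ 0 := by exact_mod_cast hN
  have e1 : (((Matrix.of (rel N a g z)).det : ℤ) : ℝ) = ((Matrix.of (rel N a g z)).map (Int.cast : ℤ → ℝ)).det :=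
    (Int.castRingHom ℝ).map_det _
  rw [e1]
  have e2 : (Matrix.of (rel N a g z)).map (Int.cast : ℤ → ℝ) =
      Matrix.fromBlocks (Matrix.of fun _ _ => (N : ℝ)) (Matrix.of fun _ i => -(a i : ℝ))
        (Matrix.of fun k _ => (g k : ℝ)) (Matrix.of fun k i => (z k i : ℝ)) := by
    ext (i | i) (j | j) <;> simp [rel]
  rw [e2]
  have hA : IsUnit (Matrix.of fun (_ _ : Unit) => (N : ℝ)).det := by
    rw [Matrix.det_unique]
    exact isUnit_iff_ne_zero.mpr hNR
  letI := Matrix.invertibleOfIsUnitDet _ hA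
  rw [Matrix.det_fromBlocks₁₁, Matrix.det_unique]
  congr 1
  congr 1
  ext k i
  have hinv : ⅟(Matrix.of fun (_ _ : Unit) => (N : ℝ)) = Matrix.of fun (_ _ : Unit) => (1 / (N : ℝ)) := by
    rw [Matrix.invOf_eq_nonsing_inv]
    refine Matrix.inv_eq_left_inv ?_
    ext i j
    simp [Matrix.mul_apply, hNR]
  rw [hinv]
  simp only [Matrix.sub_apply, Matrix.mul_apply, Matrix.of_apply, Finset.univ_unique, Finset.sum_singleton]
  rw [hΞ]
  ring

lemma det_le_prod {n : ℕ} (Ξ : Matrix (Fin n) (Fin n) ℝ) (η : Fin n → ℝ) (h : ∀ k i, |Ξ k i| ≤ η i) :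
    |Ξ.det| ≤ n.factorial * ∏ i, η i := by
  rw [Matrix.det_apply]
  calc |∑ σ : Equiv.Perm (Fin n), Equiv.Perm.sign σ • ∏ i, Ξ (σ i) i|
      ≤ ∑ σ : Equiv.Perm (Fin n), |Equiv.Perm.sign σ • ∏ i, Ξ (σ i) i| := abs_sum_le_sum_abs _ _
    _ ≤ ∑ _σ : Equiv.Perm (Fin n), ∏ i, η i := by
        refine sum_le_sum fun σ _ => ?_
        have h1 : |Equiv.Perm.sign σ • ∏ i, Ξ (σ i) i| = |∏ i, Ξ (σ i) i| := by
          rcases Int.units_eq_one_or (Equiv.Perm.sign σ) with h | h <;> rw [h] <;> simp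
        rw [h1, abs_prod]
        exact prod_le_prod (fun i _ => abs_nonneg _) fun i _ => h _ _
    _ = n.factorial * ∏ i, η i := by
        rw [sum_const, card_univ, Fintype.card_perm, Fintype.card_fin, nsmul_eq_mul]

end Pool.Agent.TH858.GP
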