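import Mathlib
import Pool.Agent.TH858.GP.Conc

/-!
# Linearly independent small characters
-/

set_option autoImplicit false

namespace Pool.Agent.TH858.GP

open Finset

variable {N n : ℕ} [NeZero N]

/-- The centred residue. -/
noncomputable def cr (c : ZMod N) : ℝ := (c.val : ℝ) / N + ((-round ((c.val : ℝ) / N) : ℤ) : ℝ)

lemma abs_cr (c : ZMod N) : |cr c| = CB.nn c := by
  unfold cr CB.nn CB.nint
  congr 1
  push_cast
  ring

lemma re_ψ_nn (c : ZMod N) : (ψ c).re = Real.cos (2 * Real.pi * CB.nn c) := by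
  rw [re_ψ_eq c (-round ((c.val : ℝ) / N)), ← abs_cr]
  change Real.cos (2 * Real.pi * cr c) = _
  rcases abs_cases (cr c) with ⟨h, _⟩ | ⟨h, _⟩
  · rw [h]
  · rw [h, mul_neg, Real.cos_neg]

theorem exists_off (a : Fin n → ZMod N) (L : Fin n → ℕ) (s : ℕ) (hL : ∀ i, 1 ≤ L i)
    (hP : ∀ v : Fin n → ℤ, (∀ i, |v i| ≤ (4 * s + 2) * L i) → ev a v = 0 → v = 0)
    (η : Fin n → ℝ) (M : Fin n → ℕ) (hη : ∀ i, 0 < η i) (hηs : ∑ i, η i ≤ 1 / 8)
    (hM : ∀ i, 1 ≤ η i * M i) (hMS : ∀ i, 20 * n * M i ≤ 2 * (s * L i) + 1) (u : Fin n → ℝ) (hu : u ≠ 0) :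
    ∃ g : ZMod N, (∀ i, CB.nn (g * a i) < η i) ∧ ∑ i, u i * cr (g * a i) ≠ 0 := by
  classical
  have hNpos : (0 : ℝ) < N := Nat.cast_pos.mpr (NeZero.pos N)
  have hLR : ∀ i, (1 : ℝ) ≤ L i := fun i => by exact_mod_cast hL i
  obtain ⟨k, hk⟩ : ∃ k, u k ≠ 0 := by
    by_contra h
    push Not at h
    exact hu (funext h)
  obtain ⟨i0, -, hi0⟩ := exists_max_image univ (fun i => |u i| / L i) ⟨k, mem_univ k⟩
  obtain ⟨t, ht⟩ : ∃ t : ℝ, t = |u i0| / L i0 := ⟨_, rfl⟩
  have htpos : 0 < t := by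
    have h1 := hi0 k (mem_univ k)
    have h2 : 0 < |u k| / L k := div_pos (abs_pos.mpr hk) (by linarith [hLR k])
    rw [ht]; linarith
  have hui : ∀ i, |u i| ≤ t * L i := by
    intro i
    have h1 := hi0 i (mem_univ i)
    rw [← ht] at h1
    have h2 := hLR i
    rw [div_le_iff₀ (by linarith)] at h1
    exact h1
  have hui0 : |u i0| = t * L i0 := by
    rw [ht]
    have h2 := hLR i0
    field_simp
  obtain ⟨q, hq⟩ : ∃ q : ℝ, q = (2 * s + 1) / t := ⟨_, rfl⟩
  have hqpos : 0 < q := by rw [hq]; positivity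
  have hqt : q * t = 2 * s + 1 := by rw [hq]; field_simp
  obtain ⟨m, hm⟩ : ∃ m : Fin n → ℤ, ∀ i, m i = round (q * u i) := ⟨_, fun _ => rfl⟩
  have hmr : ∀ i, |(m i : ℝ) - q * u i| ≤ 1 / 2 := by
    intro i
    rw [hm, abs_sub_comm]
    exact abs_sub_round _
  have hqu : ∀ i, |q * u i| ≤ (2 * s + 1) * L i := by
    intro i
    rw [abs_mul, abs_of_pos hqpos]
    calc q * |u i| ≤ q * (t * L i) := mul_le_mul_of_nonneg_left (hui i) hqpos.le
      _ = (2 * s + 1) * L i := by rw [← mul_assoc, hqt]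
  have hmabs : ∀ i, |m i| ≤ (2 * s + 1) * L i := by
    intro i
    have h1 : |(m i : ℝ)| ≤ (2 * s + 1) * L i + 1 / 2 := by
      have h2 := abs_sub_abs_le_abs_sub (m i : ℝ) (q * u i)
      have h3 := hmr i
      have h4 := hqu i
      linarith
    have h5 : |(m i : ℝ)| < (((2 * s + 1) * L i + 1 : ℤ) : ℝ) := by
      push_cast
      linarith
    rw [← Int.cast_abs] at h5
    have h6 : |m i| < (2 * s + 1) * L i + 1 := by exact_mod_cast h5
    omega
  have hm0 : (2 * s * L i0 : ℤ) < |m i0| := by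
    have h1 : (2 * s + 1) * (L i0 : ℝ) = |q * u i0| := by
      rw [abs_mul, abs_of_pos hqpos, hui0, ← mul_assoc, hqt]
    have h2 := abs_sub_abs_le_abs_sub (q * u i0) (m i0 : ℝ)
    rw [abs_sub_comm] at h2
    have h3 := hmr i0
    have h4 := hLR i0
    have h5 : (((2 * s * L i0 : ℤ)) : ℝ) < |(m i0 : ℝ)| := by
      push_cast
      nlinarith
    rw [← Int.cast_abs] at h5
    exact_mod_cast h5
  -- the point `z`
  have hinj : Set.InjOn (ev a) (box fun i => s * L i) := by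
    intro v hv v' hv' h
    rw [Finset.mem_coe, mem_box] at hv hv'
    have h1 : ev a (v - v') = 0 := by rw [ev_sub, h, sub_self]
    have h2 := hP (v - v') (fun i => by
      have h3 := hv i
      have h4 := hv' i
      have h5 := abs_sub (v i) (v' i)
      rw [Pi.sub_apply]
      push_cast at h3 h4 ⊢
      nlinarith [hL i]) h1
    exact sub_eq_zero.mp h2
  have hz : cnt (XX a fun i => s * L i) (ev a m) = 0 := by
    unfold cnt
    rw [card_eq_zero, filter_eq_empty_iff]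
    rintro ⟨p1, p2⟩ hp heq
    rw [mem_product] at hp
    unfold XX at hp
    rw [mem_image, mem_image] at hp
    obtain ⟨⟨v1, hv1, rfl⟩, ⟨v2, hv2, rfl⟩⟩ := hp
    rw [mem_box] at hv1 hv2
    have h1 : ev a (v1 - v2 + m) = 0 := by
      rw [ev_add, ev_sub]; exact heq
    have h2 := hP (v1 - v2 + m) (fun i => by
      have h3 := hv1 i
      have h4 := hv2 i
      have h5 := hmabs i
      have h6 : |v1 i - v2 i + m i| ≤ |v1 i| + |v2 i| + |m i| := by
        calc |v1 i - v2 i + m i| ≤ |v1 i - v2 i| + |m i| := abs_add_le _ _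
          _ ≤ |v1 i| + |v2 i| + |m i| := by
              have := abs_sub (v1 i) (v2 i)
              linarith
      rw [Pi.add_apply, Pi.sub_apply]
      push_cast at h3 h4 ⊢
      have h7 : (0 : ℤ) ≤ L i := by positivity
      nlinarith) h1
    have h3 := congrFun h2 i0
    rw [Pi.add_apply, Pi.sub_apply, Pi.zero_apply] at h3
    have h4 := hv1 i0
    have h5 := hv2 i0
    have h6 : |m i0| ≤ |v1 i0| + |v2 i0| := by
      have : m i0 = v2 i0 - v1 i0 := by linarith
      rw [this]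
      have := abs_sub (v2 i0) (v1 i0)
      linarith
    push_cast at h4 h5
    linarith
  obtain ⟨g, hg1, hg2⟩ := exists_char a (fun i => s * L i) hinj η M hη hM
    (fun i => by simpa using hMS i) (ev a m) hz
  refine ⟨g, hg1, fun h0 => ?_⟩
  -- `Σ m_i cr(g a_i)` is small
  have h1 : ∑ i, (m i : ℝ) * cr (g * a i) = ∑ i, ((m i : ℝ) - q * u i) * cr (g * a i) := by
    have h2 : ∑ i, q * u i * cr (g * a i) = 0 := by
      have : ∑ i, q * u i * cr (g * a i) = q * ∑ i, u i * cr (g * a i) := by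
        rw [mul_sum]
        exact sum_congr rfl fun i _ => by ring
      rw [this, h0, mul_zero]
    calc ∑ i, (m i : ℝ) * cr (g * a i) = ∑ i, (m i : ℝ) * cr (g * a i) - ∑ i, q * u i * cr (g * a i) := by
          rw [h2, sub_zero]
      _ = _ := by rw [← sum_sub_distrib]; exact sum_congr rfl fun i _ => by ring
  have h2 : |∑ i, (m i : ℝ) * cr (g * a i)| ≤ 1 / 16 := by
    rw [h1]
    calc |∑ i, ((m i : ℝ) - q * u i) * cr (g * a i)| ≤ ∑ i, |((m i : ℝ) - q * u i) * cr (g * a i)| :=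
          abs_sum_le_sum_abs _ _
      _ ≤ ∑ i, 1 / 2 * η i := by
          refine sum_le_sum fun i _ => ?_
          rw [abs_mul, abs_cr]
          exact mul_le_mul (hmr i) (hg1 i).le (CB.nint_nonneg _) (by norm_num)
      _ = 1 / 2 * ∑ i, η i := by rw [mul_sum]
      _ ≤ 1 / 16 := by linarith
  have h3 : CB.nn (g * ev a m) ≤ 1 / 16 := by
    have e1 : ∑ i, (m i : ℝ) * cr (g * a i) = ∑ i, (m i : ℝ) * (((a i * g).val : ℝ) / N +
        ((fun i => -round (((a i * g).val : ℝ) / N)) i : ℤ)) := by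
      refine sum_congr rfl fun i _ => ?_
      rw [mul_comm g (a i)]
      rfl
    have e2 := CB.nint_comb a g m (fun i => -round (((a i * g).val : ℝ) / N))
    rw [← e1] at e2
    have e3 : (∑ k, (m k : ZMod N) * a k) * g = g * ev a m := by
      unfold ev; ring
    rw [e3] at e2
    rw [← e2, CB.nint_of_small (by linarith)]
    exact h2
  rw [re_ψ_nn] at hg2
  have h4 := Real.one_sub_sq_div_two_le_cos (x := 2 * Real.pi * CB.nn (g * ev a m))
  have h5 : 0 ≤ CB.nn (g * ev a m) := CB.nint_nonneg _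
  have h6 : 2 * Real.pi * CB.nn (g * ev a m) ≤ 1 / 2 := by
    have := Real.pi_lt_four
    nlinarith [Real.pi_pos]
  have h7 : (2 * Real.pi * CB.nn (g * ev a m)) ^ 2 ≤ (1 / 2) ^ 2 :=
    pow_le_pow_left₀ (by positivity) h6 2
  linarith

/-- There are `n` linearly independent small characters. -/
theorem exists_indep (a : Fin n → ZMod N) (L : Fin n → ℕ) (s : ℕ) (hL : ∀ i, 1 ≤ L i)
    (hP : ∀ v : Fin n → ℤ, (∀ i, |v i| ≤ (4 * s + 2) * L i) → ev a v = 0 → v = 0)
    (η : Fin n → ℝ) (M : Fin n → ℕ) (hη : ∀ i, 0 < η i) (hηs : ∑ i, η i ≤ 1 / 8)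
    (hM : ∀ i, 1 ≤ η i * M i) (hMS : ∀ i, 20 * n * M i ≤ 2 * (s * L i) + 1) :
    ∃ g : Fin n → ZMod N, (∀ k i, CB.nn (g k * a i) < η i) ∧
      (Matrix.of fun k i => cr (g k * a i)).det ≠ 0 := by
  classical
  obtain ⟨T, hT⟩ : ∃ T : Set (Fin n → ℝ), T = {v | ∃ g : ZMod N, (∀ i, CB.nn (g * a i) < η i) ∧
    v = fun i => cr (g * a i)} := ⟨_, rfl⟩
  have hspan : Submodule.span ℝ T = ⊤ := by
    by_contra hne
    obtain ⟨f, hf0, hf⟩ := Submodule.exists_le_ker_of_lt_top _ (lt_top_iff_ne_top.mpr hne)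
    obtain ⟨u, hu⟩ : ∃ u : Fin n → ℝ, ∀ i, u i = f (Pi.single i 1) := ⟨_, fun _ => rfl⟩
    have hfu : ∀ v : Fin n → ℝ, f v = ∑ i, u i * v i := by
      intro v
      have h1 : v = ∑ i, v i • (Pi.single i 1 : Fin n → ℝ) := by
        funext k
        rw [Finset.sum_apply]
        simp [Pi.single_apply]
      conv_lhs => rw [h1]
      rw [map_sum]
      refine sum_congr rfl fun i _ => ?_
      rw [map_smul, smul_eq_mul, hu, mul_comm]
    have hu0 : u ≠ 0 := by
      intro h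
      apply hf0
      refine LinearMap.ext fun v => ?_
      rw [hfu, h]
      simp
    obtain ⟨g, hg1, hg2⟩ := exists_off a L s hL hP η M hη hηs hM hMS u hu0
    apply hg2
    have h1 : (fun i => cr (g * a i)) ∈ Submodule.span ℝ T := Submodule.subset_span (by
      rw [hT]; exact ⟨g, hg1, rfl⟩)
    have h2 := hf h1
    rw [LinearMap.mem_ker, hfu] at h2
    exact h2
  obtain ⟨f, hf1, hf2, hf3⟩ := Submodule.exists_fun_fin_finrank_span_eq ℝ T
  have hfin : Module.finrank ℝ (Submodule.span ℝ T) = n := by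
    rw [hspan, finrank_top, Module.finrank_fin_fun]
  obtain ⟨f', hf'1, hf'3⟩ : ∃ f' : Fin n → (Fin n → ℝ), (∀ k, f' k ∈ T) ∧ LinearIndependent ℝ f' := by
    refine ⟨fun k => f (Fin.cast hfin.symm k), fun k => hf1 _, ?_⟩
    exact hf3.comp _ (Fin.cast_injective _)
  rw [hT] at hf'1
  choose g hg1 hg2 using hf'1
  refine ⟨g, hg1, ?_⟩
  have h1 : (Matrix.of fun k i => cr (g k * a i)) = Matrix.of f' := by
    ext k i
    rw [Matrix.of_apply, Matrix.of_apply, hg2 k]
  rw [h1]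
  have h2 : LinearIndependent ℝ (Matrix.of f').row := hf'3
  have h3 := Matrix.linearIndependent_rows_iff_isUnit.mp h2
  exact ((Matrix.isUnit_iff_isUnit_det _).mp h3).ne_zero

end Pool.Agent.TH858.GP
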