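import Mathlib
import Pool.Agent.TH858.CB.Exch

/-!
# Few characters detect a finite quotient
-/

set_option autoImplicit false

namespace Pool.Agent.TH858.GP

open Finset

/-- If `q θ` is an integer and `‖D^j θ‖ ≤ 1 / (4 D)` for all `j < J`, where `q ≤ D^J`, then `θ` is an integer. -/
lemma int_of_small (θ : ℝ) (q D J : ℕ) (hq : 0 < q) (hD : 2 ≤ D) (hqJ : q ≤ D ^ J) (w : ℤ)
    (hw : (q : ℝ) * θ = w) (h : ∀ j < J, CB.nint ((D : ℝ) ^ j * θ) ≤ 1 / (4 * D)) : ∃ z : ℤ, θ = z := by
  have hDR : (2 : ℝ) ≤ D := by exact_mod_cast hD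
  have hD0 : (0 : ℝ) < D := by linarith
  have hqR : (0 : ℝ) < q := by exact_mod_cast hq
  rcases Nat.eq_zero_or_pos J with h0 | hJ
  · subst h0
    have : q = 1 := by
      have : q ≤ 1 := by simpa using hqJ
      omega
    subst this
    exact ⟨w, by simpa using hw⟩
  obtain ⟨τ, hτ⟩ : ∃ τ : ℝ, τ = θ - round θ := ⟨_, rfl⟩
  have hshift : ∀ j : ℕ, CB.nint ((D : ℝ) ^ j * τ) = CB.nint ((D : ℝ) ^ j * θ) := by
    intro j
    have : (D : ℝ) ^ j * τ = (D : ℝ) ^ j * θ + ((-((D : ℤ) ^ j * round θ) : ℤ) : ℝ) := by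
      rw [hτ]; push_cast; ring
    rw [this, CB.nint_add_int]
  have key : ∀ j < J, |(D : ℝ) ^ j * τ| ≤ 1 / (4 * D) := by
    intro j
    induction j with
    | zero =>
      intro hj
      have h1 := h 0 hj
      rw [pow_zero, one_mul] at h1 ⊢
      rw [hτ]
      exact h1
    | succ j ih =>
      intro hj
      have h1 := ih (by omega)
      have h2 : |(D : ℝ) ^ (j + 1) * τ| ≤ 1 / 4 := by
        have : (D : ℝ) ^ (j + 1) * τ = D * ((D : ℝ) ^ j * τ) := by ring
        rw [this, abs_mul, abs_of_pos hD0]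
        calc (D : ℝ) * |(D : ℝ) ^ j * τ| ≤ D * (1 / (4 * D)) := by gcongr
          _ = 1 / 4 := by field_simp
      have h3 := h (j + 1) hj
      rw [← hshift, CB.nint_of_small (by linarith)] at h3
      exact h3
  have h1 := key (J - 1) (by omega)
  rw [abs_mul, abs_of_pos (by positivity)] at h1
  have h2 : (D : ℝ) ^ J * |τ| ≤ 1 / 4 := by
    have : (D : ℝ) ^ J = D * (D : ℝ) ^ (J - 1) := by
      rw [← pow_succ']
      congr 1
      omega
    rw [this, mul_assoc]
    calc (D : ℝ) * ((D : ℝ) ^ (J - 1) * |τ|) ≤ D * (1 / (4 * D)) := by gcongr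
      _ = 1 / 4 := by field_simp
  have h3 : (q : ℝ) * |τ| ≤ 1 / 4 := by
    have : (q : ℝ) ≤ (D : ℝ) ^ J := by exact_mod_cast hqJ
    calc (q : ℝ) * |τ| ≤ (D : ℝ) ^ J * |τ| := by gcongr
      _ ≤ 1 / 4 := h2
  have h4 : (q : ℝ) * τ = ((w - q * round θ : ℤ) : ℝ) := by
    rw [hτ]; push_cast; rw [mul_sub, hw]
  have h5 : |((w - q * round θ : ℤ) : ℝ)| ≤ 1 / 4 := by
    rw [← h4, abs_mul, abs_of_pos hqR]; exact h3
  have h6 : (w - q * round θ : ℤ) = 0 := by
    rw [← Int.cast_abs] at h5
    have h7 : ((|w - q * round θ| : ℤ) : ℝ) < ((1 : ℤ) : ℝ) := by push_cast at h5 ⊢; linarith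
    have h8 : |w - q * round θ| < 1 := by exact_mod_cast h7
    exact Int.abs_lt_one_iff.mp h8
  rw [h6, Int.cast_zero] at h4
  have h9 : τ = 0 := by
    rcases mul_eq_zero.mp h4 with h | h
    · exact absurd h hqR.ne'
    · exact h
  exact ⟨round θ, by linarith [hτ, h9]⟩

theorem kill {Q : Type*} [AddCommGroup Q] (D : ℕ) (hD : 2 ≤ D) (h : List Q) :
    ∀ M : AddSubgroup Q, M.index ≠ 0 → M ⊔ AddSubgroup.closure {x | x ∈ h} = ⊤ →
    ∃ Ψ : List Q, (Ψ.length : ℝ) ≤ h.length + Real.log M.index / Real.log D ∧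
      ∀ e : Q →+ ℝ, (∀ c ∈ M, ∃ z : ℤ, e c = z) → (∀ c ∈ Ψ, CB.nint (e c) ≤ 1 / (4 * D)) →
        ∀ c, ∃ z : ℤ, e c = z := by
  have hDR : (2 : ℝ) ≤ D := by exact_mod_cast hD
  have hlogD : 0 < Real.log D := Real.log_pos (by linarith)
  induction h with
  | nil =>
    intro M hM htop
    have hMtop : M = ⊤ := by
      simpa using htop
    refine ⟨[], ?_, ?_⟩
    · rw [hMtop]; simp
    · intro e he _ c
      exact he c (by rw [hMtop]; trivial)
  | cons h0 h' ih =>
    intro M hM htop
    obtain ⟨M1, hM1⟩ : ∃ M1 : AddSubgroup Q, M1 = M ⊔ AddSubgroup.zmultiples h0 := ⟨_, rfl⟩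
    have hle : M ≤ M1 := by rw [hM1]; exact le_sup_left
    have hmul : M.relIndex M1 * M1.index = M.index := AddSubgroup.relIndex_mul_index hle
    have hM1i : M1.index ≠ 0 := by
      intro h; rw [h, mul_zero] at hmul; exact hM hmul.symm
    obtain ⟨q, hq⟩ : ∃ q : ℕ, q = M.relIndex M1 := ⟨_, rfl⟩
    have hq0 : q ≠ 0 := by
      intro h; rw [← hq, h, zero_mul] at hmul; exact hM hmul.symm
    have hqpos : 0 < q := Nat.pos_of_ne_zero hq0
    have htop1 : M1 ⊔ AddSubgroup.closure {x | x ∈ h'} = ⊤ := by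
      rw [eq_top_iff, ← htop]
      refine sup_le (hle.trans le_sup_left) ?_
      rw [AddSubgroup.closure_le]
      intro x hx
      rcases List.mem_cons.mp hx with rfl | hx
      · have h1 : x ∈ M1 := by
          rw [hM1]
          exact (le_sup_right : AddSubgroup.zmultiples x ≤ _) (AddSubgroup.mem_zmultiples x)
        exact (le_sup_left : M1 ≤ _) h1
      · exact (le_sup_right : AddSubgroup.closure _ ≤ _) (AddSubgroup.subset_closure hx)
    obtain ⟨Ψ', hΨ'1, hΨ'2⟩ := ih M1 hM1i htop1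
    obtain ⟨J, hJ⟩ : ∃ J : ℕ, J = Nat.clog D q := ⟨_, rfl⟩
    have hqJ : q ≤ D ^ J := by rw [hJ]; exact Nat.le_pow_clog (by omega) q
    have hJlog : (J : ℝ) ≤ 1 + Real.log q / Real.log D := by
      rcases Nat.lt_or_ge 1 q with h1 | h1
      · have h2 := Nat.pow_pred_clog_lt_self (b := D) (by omega) h1
        rw [← hJ] at h2
        have h3 : ((D ^ J.pred : ℕ) : ℝ) ≤ q := by exact_mod_cast h2.le
        push_cast at h3
        have h4 := Real.log_le_log (by positivity) h3
        rw [Real.log_pow] at h4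
        have h5 : (J : ℝ) ≤ 1 + (J.pred : ℝ) := by
          have : J ≤ 1 + J.pred := by
            rw [Nat.pred_eq_sub_one]; omega
          exact_mod_cast this
        have h6 : (J.pred : ℝ) ≤ Real.log q / Real.log D := by
          rw [le_div_iff₀ hlogD]; exact h4
        linarith
      · have h2 : q = 1 := by omega
        have h3 : J = 0 := by rw [hJ, h2]; simp
        rw [h3, h2]; simp
    refine ⟨(List.range J).map (fun j => (D ^ j) • h0) ++ Ψ', ?_, ?_⟩
    · rw [List.length_append, List.length_map, List.length_range, List.length_cons]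
      have h1 : Real.log M.index = Real.log q + Real.log M1.index := by
        rw [← hmul, ← hq]
        push_cast
        exact Real.log_mul (by exact_mod_cast hq0) (by exact_mod_cast hM1i)
      rw [h1, add_div]
      push_cast
      linarith
    · intro e he hΨ
      have hh0 : ∃ z : ℤ, e h0 = z := by
        have h1 : q • h0 ∈ M := by
          have h2 : h0 ∈ M1 := by
            rw [hM1]
            exact (le_sup_right : AddSubgroup.zmultiples h0 ≤ _) (AddSubgroup.mem_zmultiples h0)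
          rw [hq]
          exact AddSubgroup.nsmul_relIndex_mem M h2
        obtain ⟨w, hw⟩ := he _ h1
        rw [map_nsmul, nsmul_eq_mul] at hw
        refine int_of_small (e h0) q D J hqpos hD hqJ w hw ?_
        intro j hj
        have h4 := hΨ ((D ^ j) • h0) (by
          rw [List.mem_append]
          left
          exact List.mem_map_of_mem (List.mem_range.mpr hj))
        rw [map_nsmul, nsmul_eq_mul] at h4
        push_cast at h4
        exact h4
      refine hΨ'2 e ?_ (fun c hc => hΨ c (List.mem_append_right _ hc))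
      intro c hc
      rw [hM1, AddSubgroup.mem_sup] at hc
      obtain ⟨m, hm, y, hy, rfl⟩ := hc
      obtain ⟨k, rfl⟩ := AddSubgroup.mem_zmultiples_iff.mp hy
      obtain ⟨z1, hz1⟩ := he m hm
      obtain ⟨z2, hz2⟩ := hh0
      refine ⟨z1 + k * z2, ?_⟩
      rw [map_add, map_zsmul, hz1, hz2]
      simp

end Pool.Agent.TH858.GP
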