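import Mathlib
import Pool.Agent.TH858.CB.Main
import Pool.Agent.TH858.GP.Indep
import Pool.Agent.TH858.GP.Kill
import Pool.Agent.TH858.GP.Det

/-!
# Strongly proper progressions contain Bohr sets
-/

set_option autoImplicit false

namespace Pool.Agent.TH858.GP

open Finset Matrix

lemma nint_add_le (a b : ℝ) : CB.nint (a + b) ≤ CB.nint a + |b| := by
  unfold CB.nint
  calc |a + b - round (a + b)| ≤ |a + b - round a| := round_le (a + b) (round a)
    _ = |(a - round a) + b| := by congr 1; ring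
    _ ≤ |a - round a| + |b| := abs_add_le _ _

lemma exists_int {N : ℕ} [NeZero N] (c : ℤ) (b : ZMod N) (h : (c : ZMod N) = b) :
    ∃ z : ℤ, (c : ℝ) / N = (b.val : ℝ) / N + z := by
  have hN : (N : ℝ) ≠ 0 := Nat.cast_ne_zero.mpr (NeZero.ne N)
  have h1 : (c : ZMod N) = ((b.val : ℤ) : ZMod N) := by
    rw [h]; simp
  rw [ZMod.intCast_eq_intCast_iff_dvd_sub] at h1
  obtain ⟨z, hz⟩ := h1
  refine ⟨-z, ?_⟩
  have h3 : (b.val : ℝ) - (c : ℝ) = N * z := by exact_mod_cast hz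
  field_simp
  push_cast
  linarith

variable {N n : ℕ} [NeZero N]

/-- The linear image of the real box. -/
def KK (Ξ : Matrix (Fin n) (Fin n) ℝ) (L : Fin n → ℕ) : Set (Fin n → ℝ) :=
  {w | ∃ y : Fin n → ℝ, (∀ i, |y i| ≤ L i) ∧ ∀ k, w k = ∑ i, Ξ k i * y i}

omit [NeZero N] in
lemma KK_convex (Ξ : Matrix (Fin n) (Fin n) ℝ) (L : Fin n → ℕ) : Convex ℝ (KK Ξ L) := by
  rintro w ⟨y, hy, hw⟩ w' ⟨y', hy', hw'⟩ p q hp hq hpq
  refine ⟨p • y + q • y', fun i => ?_, fun k => ?_⟩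
  · rw [Pi.add_apply, Pi.smul_apply, Pi.smul_apply, smul_eq_mul, smul_eq_mul]
    calc |p * y i + q * y' i| ≤ |p * y i| + |q * y' i| := abs_add_le _ _
      _ = p * |y i| + q * |y' i| := by rw [abs_mul, abs_mul, abs_of_nonneg hp, abs_of_nonneg hq]
      _ ≤ p * L i + q * L i := by
          have := mul_le_mul_of_nonneg_left (hy i) hp
          have := mul_le_mul_of_nonneg_left (hy' i) hq
          linarith
      _ = L i := by rw [← add_mul, hpq, one_mul]
  · rw [Pi.add_apply, Pi.smul_apply, Pi.smul_apply, smul_eq_mul, smul_eq_mul, hw, hw', mul_sum, mul_sum,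
      ← sum_add_distrib]
    refine sum_congr rfl fun i _ => ?_
    rw [Pi.add_apply, Pi.smul_apply, Pi.smul_apply, smul_eq_mul, smul_eq_mul]
    ring

omit [NeZero N] in
lemma KK_symm (Ξ : Matrix (Fin n) (Fin n) ℝ) (L : Fin n → ℕ) : ∀ w ∈ KK Ξ L, -w ∈ KK Ξ L := by
  rintro w ⟨y, hy, hw⟩
  refine ⟨-y, fun i => by rw [Pi.neg_apply, abs_neg]; exact hy i, fun k => ?_⟩
  rw [Pi.neg_apply, hw, ← sum_neg_distrib]
  refine sum_congr rfl fun i _ => ?_
  rw [Pi.neg_apply]; ring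

omit [NeZero N] in
lemma KK_small (Ξ : Matrix (Fin n) (Fin n) ℝ) (L : Fin n → ℕ) (η : Fin n → ℝ) (h : ∀ k i, |Ξ k i| ≤ η i) :
    ∀ w ∈ KK Ξ L, ∀ k, |w k| ≤ ∑ i, η i * L i := by
  rintro w ⟨y, hy, hw⟩ k
  rw [hw]
  calc |∑ i, Ξ k i * y i| ≤ ∑ i, |Ξ k i * y i| := abs_sum_le_sum_abs _ _
    _ ≤ ∑ i, η i * L i := by
        refine sum_le_sum fun i _ => ?_
        rw [abs_mul]
        exact mul_le_mul (h k i) (hy i) (abs_nonneg _) ((abs_nonneg _).trans (h k i))

/-- The last step: a point with all the characters near integers is in the progression. -/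
theorem last_step (a : Fin n → ZMod N) (L : Fin n → ℕ) (g : Fin n → ZMod N) (z : Fin n → Fin n → ℤ)
    (Ξ : Matrix (Fin n) (Fin n) ℝ) (hΞ : Ξ.det ≠ 0)
    (hz : ∀ k i, Ξ k i = (((g k).val : ℤ) : ℝ) * ((a i).val : ℤ) / ((N : ℤ) : ℝ) + z k i)
    (D : ℕ) (Ψ : List (Unit ⊕ Fin n → ℤ))
    (hΨ : ∀ e : (Unit ⊕ Fin n → ℤ) →+ ℝ,
      (∀ c ∈ (Submodule.span ℤ (Set.range (rel (N : ℤ) (fun i => ((a i).val : ℤ)) (fun k => ((g k).val : ℤ)) z))).toAddSubgroup,
        ∃ w : ℤ, e c = w) → (∀ c ∈ Ψ, CB.nint (e c) ≤ 1 / (4 * D)) → ∀ c, ∃ w : ℤ, e c = w)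
    (x : ZMod N) (y w : Fin n → ℝ) (hy : ∀ i, |y i| ≤ L i) (hw : ∀ k, w k = ∑ i, Ξ k i * y i)
    (hwz : ∀ k, ∃ zz : ℤ, w k = ((g k * x).val : ℝ) / N + zz) (r δ : ℝ) (hδ : ∀ k, |w k| ≤ δ)
    (hr : r + n / 2 * δ ≤ 1 / (4 * D))
    (hx : ∀ c ∈ Ψ, CB.nn (((c (Sum.inl ()) : ZMod N) - ∑ k, ((round (((fun i => (c (Sum.inl ()) : ℝ) * (a i).val / N +
      c (Sum.inr i)) ᵥ* Ξ⁻¹) k) : ℤ) : ZMod N) * g k) * x) ≤ r) :
    x ∈ XX a L := by
  classical
  have hN : (N : ℝ) ≠ 0 := Nat.cast_ne_zero.mpr (NeZero.ne N)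
  choose zz hzz using hwz
  let e : (Unit ⊕ Fin n → ℤ) →+ ℝ := AddMonoidHom.mk' (fun c => (c (Sum.inl ()) : ℝ) * ((x.val : ℝ) / N) -
    ∑ i, ((c (Sum.inl ()) : ℝ) * (a i).val / N + c (Sum.inr i)) * y i) (by
      intro c c'
      simp only [Pi.add_apply, Int.cast_add]
      have : ∑ i, (((c (Sum.inl ()) : ℝ) + c' (Sum.inl ())) * (a i).val / N + ((c (Sum.inr i) : ℝ) + c' (Sum.inr i))) * y i =
          ∑ i, ((c (Sum.inl ()) : ℝ) * (a i).val / N + c (Sum.inr i)) * y i +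
          ∑ i, ((c' (Sum.inl ()) : ℝ) * (a i).val / N + c' (Sum.inr i)) * y i := by
        rw [← sum_add_distrib]
        exact sum_congr rfl fun i _ => by ring
      rw [this]
      ring)
  have he : ∀ c, e c = (c (Sum.inl ()) : ℝ) * ((x.val : ℝ) / N) -
    ∑ i, ((c (Sum.inl ()) : ℝ) * (a i).val / N + c (Sum.inr i)) * y i := fun _ => rfl
  -- `g_k x / N` and `w_k`
  have hgx : ∀ k, ∃ q : ℤ, ((g k).val : ℝ) * (x.val : ℝ) / N = w k + q := by
    intro k
    obtain ⟨q, hq⟩ := exists_int (N := N) (((g k).val : ℤ) * (x.val : ℤ)) (g k * x) (by push_cast; simp)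
    refine ⟨q - zz k, ?_⟩
    rw [hzz k]
    push_cast at hq ⊢
    linarith
  choose q hq using hgx
  have hrow : ∀ j, ∃ w' : ℤ, e (rel (N : ℤ) (fun i => ((a i).val : ℤ)) (fun k => ((g k).val : ℤ)) z j) = w' := by
    rintro (⟨⟩ | k)
    · refine ⟨x.val, ?_⟩
      rw [he]
      have h1 : ∑ i, (((rel (N : ℤ) (fun i => ((a i).val : ℤ)) (fun k => ((g k).val : ℤ)) z (Sum.inl ()) (Sum.inl ()) : ℤ) : ℝ) *
          (a i).val / N + (rel (N : ℤ) (fun i => ((a i).val : ℤ)) (fun k => ((g k).val : ℤ)) z (Sum.inl ()) (Sum.inr i) : ℤ)) * y i = 0 := by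
        refine sum_eq_zero fun i _ => ?_
        simp only [rel, Matrix.of_symm_apply, Matrix.fromBlocks_apply₁₁, Matrix.fromBlocks_apply₁₂, Matrix.of_apply]
        push_cast
        field_simp
        ring
      rw [h1]
      simp only [rel, Matrix.of_symm_apply, Matrix.fromBlocks_apply₁₁, Matrix.of_apply]
      push_cast
      field_simp
      ring
    · refine ⟨q k, ?_⟩
      rw [he]
      have h1 : ∑ i, (((rel (N : ℤ) (fun i => ((a i).val : ℤ)) (fun k => ((g k).val : ℤ)) z (Sum.inr k) (Sum.inl ()) : ℤ) : ℝ) *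
          (a i).val / N + (rel (N : ℤ) (fun i => ((a i).val : ℤ)) (fun k => ((g k).val : ℤ)) z (Sum.inr k) (Sum.inr i) : ℤ)) * y i =
          w k := by
        rw [hw]
        refine sum_congr rfl fun i _ => ?_
        simp only [rel, Matrix.of_symm_apply, Matrix.fromBlocks_apply₂₁, Matrix.fromBlocks_apply₂₂, Matrix.of_apply]
        rw [hz]
        push_cast
        ring
      rw [h1]
      simp only [rel, Matrix.of_symm_apply, Matrix.fromBlocks_apply₂₁, Matrix.of_apply]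
      have h2 := hq k
      push_cast
      have h3 : ((g k).val : ℝ) * ((x.val : ℝ) / N) = ((g k).val : ℝ) * (x.val : ℝ) / N := by ring
      rw [h3, h2]
      ring
  have hall := hΨ e (by
    intro c hc
    have hc' : c ∈ Submodule.span ℤ (Set.range (rel (N : ℤ) (fun i => ((a i).val : ℤ)) (fun k => ((g k).val : ℤ)) z)) := hc
    rw [Submodule.mem_span_range_iff_exists_fun] at hc'
    obtain ⟨m, rfl⟩ := hc'
    choose w' hw' using hrow
    refine ⟨∑ j, m j * w' j, ?_⟩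
    rw [map_sum]
    push_cast
    refine sum_congr rfl fun j _ => ?_
    rw [map_zsmul, hw', zsmul_eq_mul]) (by
    intro c hc
    have h1 := hx c hc
    obtain ⟨t, ht⟩ : ∃ t : Fin n → ℝ, t = (fun i => (c (Sum.inl ()) : ℝ) * (a i).val / N + c (Sum.inr i)) ᵥ* Ξ⁻¹ := ⟨_, rfl⟩
    rw [← ht] at h1
    have hform : ∀ i, (c (Sum.inl ()) : ℝ) * (a i).val / N + c (Sum.inr i) = ∑ k, t k * Ξ k i := by
      intro i
      have h2 := CB.coord_sum Ξ hΞ (fun i => (c (Sum.inl ()) : ℝ) * (a i).val / N + c (Sum.inr i))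
      have h3 := congrFun h2 i
      rw [Finset.sum_apply, ← ht] at h3
      exact h3
    have hsum : ∑ i, ((c (Sum.inl ()) : ℝ) * (a i).val / N + c (Sum.inr i)) * y i = ∑ k, t k * w k := by
      calc ∑ i, ((c (Sum.inl ()) : ℝ) * (a i).val / N + c (Sum.inr i)) * y i
          = ∑ i, ∑ k, t k * Ξ k i * y i := by
            refine sum_congr rfl fun i _ => ?_
            rw [hform, sum_mul]
        _ = ∑ k, t k * w k := by
            rw [sum_comm]
            refine sum_congr rfl fun k _ => ?_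
            rw [hw, mul_sum]
            exact sum_congr rfl fun i _ => by ring
    have hdec : e c = ((((c (Sum.inl ()) - ∑ k, round (t k) * ((g k).val : ℤ)) * (x.val : ℤ) : ℤ) : ℝ) / N +
        ((∑ k, round (t k) * q k : ℤ) : ℝ)) + (-∑ k, (t k - round (t k)) * w k) := by
      rw [he, hsum]
      push_cast
      have h4 : ∑ k, (t k - round (t k)) * w k = ∑ k, t k * w k - ∑ k, (round (t k) : ℝ) * w k := by
        rw [← sum_sub_distrib]
        exact sum_congr rfl fun k _ => by ring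
      have h5 : (∑ k, (round (t k) : ℝ) * ((g k).val : ℝ)) * (x.val : ℝ) / N =
          ∑ k, (round (t k) : ℝ) * w k + ∑ k, (round (t k) : ℝ) * q k := by
        rw [sum_mul, sum_div, ← sum_add_distrib]
        refine sum_congr rfl fun k _ => ?_
        rw [← mul_add, ← hq k]
        ring
      rw [h4, sub_mul, sub_div, h5]
      ring
    rw [hdec]
    refine (nint_add_le _ _).trans ?_
    rw [CB.nint_add_int, CB.nint_eq_nn ((c (Sum.inl ()) - ∑ k, round (t k) * ((g k).val : ℤ)) * (x.val : ℤ))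
      (((c (Sum.inl ()) : ZMod N) - ∑ k, ((round (t k) : ℤ) : ZMod N) * g k) * x) (by push_cast; simp), abs_neg]
    have h6 : |∑ k, (t k - round (t k)) * w k| ≤ n / 2 * δ := by
      calc |∑ k, (t k - round (t k)) * w k| ≤ ∑ k, |(t k - round (t k)) * w k| := abs_sum_le_sum_abs _ _
        _ ≤ ∑ _k : Fin n, 1 / 2 * δ := by
            refine sum_le_sum fun k _ => ?_
            rw [abs_mul]
            exact mul_le_mul (abs_sub_round _) (hδ k) (abs_nonneg _) (by norm_num)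
        _ = n / 2 * δ := by simp; ring
    linarith)
  -- the coordinates are integers
  have hyi : ∀ i, ∃ m : ℤ, y i = m := by
    intro i
    obtain ⟨w', hw'⟩ := hall (Pi.single (Sum.inr i) 1)
    refine ⟨-w', ?_⟩
    rw [he] at hw'
    have h1 : ∑ k, ((((Pi.single (Sum.inr i) 1 : Unit ⊕ Fin n → ℤ) (Sum.inl ()) : ℤ) : ℝ) * (a k).val / N +
        ((Pi.single (Sum.inr i) 1 : Unit ⊕ Fin n → ℤ) (Sum.inr k) : ℤ)) * y k = y i := by
      rw [sum_eq_single i]
      · simp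
      · intro k _ hk
        have : (Pi.single (Sum.inr i) 1 : Unit ⊕ Fin n → ℤ) (Sum.inr k) = 0 := by
          rw [Pi.single_eq_of_ne]
          intro h
          exact hk (Sum.inr.inj h)
        rw [this]
        simp
      · intro h; exact absurd (mem_univ _) h
    rw [h1] at hw'
    simp at hw'
    push_cast
    linarith
  choose m hm using hyi
  obtain ⟨w', hw'⟩ := hall (Pi.single (Sum.inl ()) 1)
  rw [he] at hw'
  have h1 : ∑ i, ((((Pi.single (Sum.inl ()) 1 : Unit ⊕ Fin n → ℤ) (Sum.inl ()) : ℤ) : ℝ) * (a i).val / N +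
        ((Pi.single (Sum.inl ()) 1 : Unit ⊕ Fin n → ℤ) (Sum.inr i) : ℤ)) * y i = (∑ i, ((a i).val : ℝ) * m i) / N := by
    rw [sum_div]
    refine sum_congr rfl fun i _ => ?_
    rw [hm i]
    simp
    ring
  rw [h1, Pi.single_eq_same] at hw'
  have h2 : (x.val : ℤ) - ∑ i, ((a i).val : ℤ) * m i = N * w' := by
    have h3 : (x.val : ℝ) - ∑ i, ((a i).val : ℝ) * m i = N * w' := by
      rw [← hw']
      push_cast
      field_simp
    exact_mod_cast h3
  have h3 : x = ev a m := by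
    have h4 := congrArg (Int.cast : ℤ → ZMod N) h2
    push_cast at h4
    simp at h4
    unfold ev
    rw [sub_eq_zero] at h4
    rw [h4]
    exact sum_congr rfl fun i _ => mul_comm _ _
  unfold XX
  rw [mem_image]
  refine ⟨m, ?_, h3.symm⟩
  rw [mem_box]
  intro i
  have h4 := hy i
  rw [hm i] at h4
  exact_mod_cast h4

end Pool.Agent.TH858.GP
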