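import Mathlib
import Pool.Agent.TH858.GP.Core

/-!
# Strongly proper progressions contain Bohr sets of small dimension
-/

set_option autoImplicit false

namespace Pool.Agent.TH858.GP

open Finset Matrix

lemma closure_single {ι : Type*} [Fintype ι] [DecidableEq ι] :
    AddSubgroup.closure {x : ι → ℤ | x ∈ (univ : Finset ι).toList.map fun i => (Pi.single i 1 : ι → ℤ)} = ⊤ := by
  rw [eq_top_iff]
  intro c _
  have h : c = ∑ i, c i • (Pi.single i 1 : ι → ℤ) := by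
    funext j
    rw [Finset.sum_apply, sum_eq_single j]
    · simp
    · intro i _ hi
      rw [Pi.smul_apply, Pi.single_eq_of_ne (Ne.symm hi)]; simp
    · intro h; exact absurd (mem_univ _) h
  rw [h]
  refine AddSubgroup.sum_mem _ fun i _ => AddSubgroup.zsmul_mem _ (AddSubgroup.subset_closure ?_) _
  rw [Set.mem_ofPred_eq, List.mem_map]
  exact ⟨i, by simp, rfl⟩

variable {N n : ℕ} [NeZero N]

/-- A strongly proper progression contains a Bohr set of small dimension. -/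
theorem strong (a : Fin n → ZMod N) (L : Fin n → ℕ) (hL : ∀ i, 1 ≤ L i) (R : ℝ) (hR : (n : ℝ) + 2 ≤ R)
    (hP : ∀ v : Fin n → ℤ, (∀ i, |v i| ≤ (4 * (160 * ⌈R⌉₊ ^ 4 : ℕ) + 2) * L i) → ev a v = 0 → v = 0) :
    ∃ Γ : Finset (ZMod N), (Γ.card : ℝ) ≤ 25 * n + 1 + 5 * (Real.log (N / ∏ i, (L i : ℝ)) / Real.log R) ∧
      1 ≤ (N : ℝ) / ∏ i, (L i : ℝ) ∧
      ∀ x : ZMod N, (∀ g ∈ Γ, CB.nn (g * x) ≤ 1 / (8 * R)) → x ∈ XX a L := by
  classical
  have hN : (N : ℝ) ≠ 0 := Nat.cast_ne_zero.mpr (NeZero.ne N)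
  have hNpos : (0 : ℝ) < N := Nat.cast_pos.mpr (NeZero.pos N)
  have hn0 : (0 : ℝ) ≤ n := Nat.cast_nonneg n
  have hR2 : 2 ≤ R := by linarith
  have hR0 : 0 < R := by linarith
  obtain ⟨ρ, hρ⟩ : ∃ ρ : ℕ, ρ = ⌈R⌉₊ := ⟨_, rfl⟩
  rw [← hρ] at hP
  have hρR : R ≤ ρ := by rw [hρ]; exact Nat.le_ceil R
  have hρR2 : (ρ : ℝ) ≤ R + 1 := by rw [hρ]; exact (Nat.ceil_lt_add_one hR0.le).le
  have hρ2 : (2 : ℝ) ≤ ρ := by linarith
  have hρ2n : 2 ≤ ρ := by exact_mod_cast hρ2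
  have hρ0 : (0 : ℝ) < ρ := by linarith
  have hnρ : (n : ℝ) + 2 ≤ ρ := by linarith
  have hnρn : n ≤ ρ := by
    have : (n : ℝ) ≤ ρ := by linarith
    exact_mod_cast this
  have hLR : ∀ i, (1 : ℝ) ≤ L i := fun i => by exact_mod_cast hL i
  have hL0 : ∀ i, (0 : ℝ) < L i := fun i => lt_of_lt_of_le one_pos (hLR i)
  obtain ⟨s, hs⟩ : ∃ s : ℕ, s = 160 * ρ ^ 4 := ⟨_, rfl⟩
  rw [← hs] at hP
  obtain ⟨η, hη⟩ : ∃ η : Fin n → ℝ, η = fun i => (1 : ℝ) / (16 * (ρ : ℝ) ^ 3 * (L i : ℝ)) := ⟨_, rfl⟩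
  have hη0 : ∀ i, 0 < η i := fun i => by
    rw [hη]
    have := hL0 i
    positivity
  have hρ3 : (8 : ℝ) ≤ ρ ^ 3 := by
    calc (8 : ℝ) = 2 ^ 3 := by norm_num
      _ ≤ ρ ^ 3 := pow_le_pow_left₀ (by norm_num) hρ2 3
  have hηL : ∀ i, η i * L i = 1 / (16 * ρ ^ 3) := fun i => by
    rw [hη]
    have := hL0 i
    field_simp
  have hηLsum : ∑ i, η i * L i ≤ 1 / (16 * ρ ^ 2) := by
    rw [sum_congr rfl fun i _ => hηL i, sum_const, card_univ, Fintype.card_fin, nsmul_eq_mul]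
    rw [← div_eq_mul_one_div, div_le_div_iff₀ (by positivity) (by positivity)]
    have : (n : ℝ) ≤ ρ := by linarith
    calc (n : ℝ) * (16 * (ρ : ℝ) ^ 2) ≤ (ρ : ℝ) * (16 * (ρ : ℝ) ^ 2) := by gcongr
      _ = 1 * (16 * (ρ : ℝ) ^ 3) := by ring
  have hρ22 : (1 : ℝ) / (16 * ρ ^ 2) ≤ 1 / 8 := by
    apply one_div_le_one_div_of_le (by norm_num)
    nlinarith
  have hηs : ∑ i, η i ≤ 1 / 8 := by
    refine le_trans ?_ (hηLsum.trans hρ22)
    refine sum_le_sum fun i _ => ?_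
    have := hη0 i
    have := hLR i
    nlinarith
  obtain ⟨g, hg1, hg2⟩ := exists_indep a L s hL hP η (fun i => 16 * ρ ^ 3 * L i) hη0 hηs
    (fun i => by
      have h1 := hL0 i
      have h2 : η i * ((16 * ρ ^ 3 * L i : ℕ) : ℝ) = 1 := by
        rw [hη]
        push_cast
        field_simp
      exact h2.ge)
    (fun i => by
      rw [hs]
      have : n * (ρ ^ 3 * L i) ≤ ρ * (ρ ^ 3 * L i) := Nat.mul_le_mul_right _ hnρn
      calc 20 * n * (16 * ρ ^ 3 * L i) = 320 * (n * (ρ ^ 3 * L i)) := by ring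
        _ ≤ 320 * (ρ * (ρ ^ 3 * L i)) := Nat.mul_le_mul_left _ this
        _ ≤ 2 * (160 * ρ ^ 4 * L i) + 1 := by
            have : 320 * (ρ * (ρ ^ 3 * L i)) = 2 * (160 * ρ ^ 4 * L i) := by ring
            omega)
  obtain ⟨Ξ, hΞ⟩ : ∃ Ξ : Matrix (Fin n) (Fin n) ℝ, Ξ = Matrix.of fun k i => cr (g k * a i) := ⟨_, rfl⟩
  rw [← hΞ] at hg2
  have hΞη : ∀ k i, |Ξ k i| ≤ η i := fun k i => by
    rw [hΞ, Matrix.of_apply, abs_cr]
    exact (hg1 k i).le
  have hzex : ∀ k i, ∃ z : ℤ, Ξ k i = (((g k).val : ℤ) : ℝ) * ((a i).val : ℤ) / ((N : ℤ) : ℝ) + z := by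
    intro k i
    obtain ⟨z', hz'⟩ := exists_int (N := N) (((g k).val : ℤ) * (a i).val) (g k * a i) (by push_cast; simp)
    refine ⟨-z' + (-round (((g k * a i).val : ℝ) / N)), ?_⟩
    rw [hΞ, Matrix.of_apply]
    unfold cr
    push_cast at hz' ⊢
    rw [hz']
    ring
  choose z hz using hzex
  -- the progression and the convex Bohr set
  obtain ⟨A, hA⟩ : ∃ A : Finset (ZMod N), A = univ.filter fun x => ∃ y ∈ KK Ξ L, ∀ k, |y k| ≤ R ∧
      ∃ z : ℤ, y k = ((g k * x).val : ℝ) / N + z := ⟨_, rfl⟩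
  have hAmem : ∀ x, x ∈ A ↔ ∃ y ∈ KK Ξ L, ∀ k, |y k| ≤ R ∧ ∃ z : ℤ, y k = ((g k * x).val : ℝ) / N + z := by
    intro x
    rw [hA, mem_filter]
    exact ⟨fun h => h.2, fun h => ⟨mem_univ _, h⟩⟩
  have hXA : XX a L ⊆ A := by
    intro x hx
    unfold XX at hx
    rw [mem_image] at hx
    obtain ⟨m, hm, hmx⟩ := hx
    rw [mem_box] at hm
    rw [hAmem]
    have hmem : (fun k => ∑ i, Ξ k i * (m i : ℝ)) ∈ KK Ξ L :=
      ⟨fun i => (m i : ℝ), fun i => by
        have h0 := hm i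
        show |((m i : ℤ) : ℝ)| ≤ (L i : ℝ)
        exact_mod_cast h0, fun k => rfl⟩
    refine ⟨fun k => ∑ i, Ξ k i * (m i : ℝ), hmem, fun k => ⟨?_, ?_⟩⟩
    · refine (KK_small Ξ L η hΞη _ hmem k).trans (hηLsum.trans (hρ22.trans ?_))
      linarith
    · obtain ⟨z', hz'⟩ := exists_int (N := N) (∑ i, m i * (((g k).val : ℤ) * (a i).val)) (g k * x) (by
        rw [← hmx]
        unfold ev
        rw [mul_sum]
        push_cast
        refine sum_congr rfl fun i _ => ?_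
        simp
        ring)
      refine ⟨z' + ∑ i, z k i * m i, ?_⟩
      push_cast
      rw [← add_assoc, ← hz']
      push_cast
      rw [sum_div, ← sum_add_distrib]
      refine sum_congr rfl fun i _ => ?_
      rw [hz]
      push_cast
      ring
  have hinj : Set.InjOn (ev a) (box L) := by
    intro v hv v' hv' hvv
    rw [mem_coe, mem_box] at hv hv'
    have h1 := hP (v - v') (fun i => by
      have h2 := hv i
      have h3 := hv' i
      have h4 : |(v - v') i| ≤ |v i| + |v' i| := by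
        rw [Pi.sub_apply]; exact abs_sub _ _
      have h5 : (0 : ℤ) ≤ L i := by positivity
      have h6 : (2 : ℤ) * L i ≤ (4 * (s : ℤ) + 2) * L i := by
        have : (0 : ℤ) ≤ s := by positivity
        nlinarith
      linarith) (by rw [ev_sub, hvv, sub_self])
    exact sub_eq_zero.mp h1
  have hXcard : (XX a L).card = ∏ i, (2 * L i + 1) := by
    unfold XX
    rw [card_image_of_injOn hinj, card_box]
  have hprodpos : (0 : ℝ) < ∏ i, (L i : ℝ) := prod_pos fun i _ => hL0 i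
  have hAcard : ∏ i, (L i : ℝ) ≤ A.card := by
    calc ∏ i, (L i : ℝ) ≤ ∏ i, ((2 * L i + 1 : ℕ) : ℝ) := by
          refine prod_le_prod (fun i _ => (hL0 i).le) fun i _ => ?_
          push_cast
          linarith [hL0 i]
      _ = ((XX a L).card : ℝ) := by rw [hXcard]; push_cast; rfl
      _ ≤ A.card := by exact_mod_cast card_le_card hXA
  have hAne : A.Nonempty := by
    rw [← card_pos]
    have : (0 : ℝ) < A.card := lt_of_lt_of_le hprodpos hAcard
    exact_mod_cast this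
  have hlogR : 0 < Real.log R := Real.log_pos (by linarith)
  obtain ⟨Γ₁, hΓ₁, hΓ₁'⟩ := CB.main g (KK Ξ L) (KK_convex Ξ L) (KK_symm Ξ L) R hR A hAne hAmem
  have hA1 : Real.log (N / A.card) ≤ Real.log (N / ∏ i, (L i : ℝ)) := by
    apply Real.log_le_log
    · have : (0 : ℝ) < A.card := by exact_mod_cast hAne.card_pos
      positivity
    · exact div_le_div_of_nonneg_left hNpos.le hprodpos hAcard
  -- the lattice of relations
  have hdet := det_rel (N : ℤ) (by exact_mod_cast NeZero.ne N) (fun i => ((a i).val : ℤ)) (fun k => ((g k).val : ℤ)) z Ξ hz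
  have hdet0 : (Matrix.of (rel (N : ℤ) (fun i => ((a i).val : ℤ)) (fun k => ((g k).val : ℤ)) z)).det ≠ 0 := by
    intro h
    rw [h] at hdet
    have : ((N : ℤ) : ℝ) * Ξ.det ≠ 0 := mul_ne_zero (by exact_mod_cast hN) hg2
    exact this (by rw [← hdet]; simp)
  have hindex := index_span' _ hdet0
  have hidx : ((Submodule.span ℤ (Set.range (rel (N : ℤ) (fun i => ((a i).val : ℤ)) (fun k => ((g k).val : ℤ)) z))).toAddSubgroup.index : ℝ)
      ≤ N / ∏ i, (L i : ℝ) := by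
    rw [hindex, Nat.cast_natAbs, Int.cast_abs, hdet, abs_mul]
    have h1 := det_le_prod Ξ η hΞη
    have h2 : |((N : ℤ) : ℝ)| = N := by
      rw [Int.cast_natCast, abs_of_pos hNpos]
    rw [h2, div_eq_mul_inv]
    refine mul_le_mul_of_nonneg_left (h1.trans ?_) hNpos.le
    have h3 : ∏ i, η i = (1 / (16 * (ρ : ℝ) ^ 3)) ^ n * (∏ i, (L i : ℝ))⁻¹ := by
      rw [← Finset.prod_inv_distrib]
      have : (1 / (16 * (ρ : ℝ) ^ 3)) ^ n = ∏ _i : Fin n, (1 / (16 * (ρ : ℝ) ^ 3)) := by simp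
      rw [this, ← prod_mul_distrib]
      refine prod_congr rfl fun i _ => ?_
      rw [hη]
      have := hL0 i
      field_simp
    rw [h3, ← mul_assoc]
    have h4 : (n.factorial : ℝ) * (1 / (16 * (ρ : ℝ) ^ 3)) ^ n ≤ 1 := by
      have h5 : (n.factorial : ℝ) ≤ (n : ℝ) ^ n := by exact_mod_cast Nat.factorial_le_pow n
      have h6 : (n : ℝ) ^ n ≤ (16 * (ρ : ℝ) ^ 3) ^ n := by
        refine pow_le_pow_left₀ hn0 ?_ n
        have : (ρ : ℝ) ≤ 16 * ρ ^ 3 := by nlinarith [sq_nonneg (ρ : ℝ)]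
        linarith
      rw [one_div, inv_pow, mul_inv_le_iff₀ (by positivity), one_mul]
      exact h5.trans h6
    calc (n.factorial : ℝ) * (1 / (16 * (ρ : ℝ) ^ 3)) ^ n * (∏ i, (L i : ℝ))⁻¹
        ≤ 1 * (∏ i, (L i : ℝ))⁻¹ := by
          refine mul_le_mul_of_nonneg_right h4 (inv_nonneg.mpr hprodpos.le)
      _ = (∏ i, (L i : ℝ))⁻¹ := one_mul _
  have hidx0 : (Submodule.span ℤ (Set.range (rel (N : ℤ) (fun i => ((a i).val : ℤ)) (fun k => ((g k).val : ℤ)) z))).toAddSubgroup.index ≠ 0 := by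
    rw [hindex]
    exact Int.natAbs_ne_zero.mpr hdet0
  have hidx1 : (1 : ℝ) ≤ (Submodule.span ℤ (Set.range (rel (N : ℤ) (fun i => ((a i).val : ℤ)) (fun k => ((g k).val : ℤ)) z))).toAddSubgroup.index := by
    exact_mod_cast Nat.one_le_iff_ne_zero.mpr hidx0
  have hone : 1 ≤ (N : ℝ) / ∏ i, (L i : ℝ) := hidx1.trans hidx
  obtain ⟨Ψ, hΨ1, hΨ2⟩ := kill ρ hρ2n ((univ : Finset (Unit ⊕ Fin n)).toList.map fun i => (Pi.single i 1 : Unit ⊕ Fin n → ℤ))
    (Submodule.span ℤ (Set.range (rel (N : ℤ) (fun i => ((a i).val : ℤ)) (fun k => ((g k).val : ℤ)) z))).toAddSubgroup hidx0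
    (by rw [closure_single]; exact sup_top_eq _)
  have hΨlen : (Ψ.length : ℝ) ≤ n + 1 + Real.log (N / ∏ i, (L i : ℝ)) / Real.log R := by
    refine hΨ1.trans ?_
    have h1 : (((univ : Finset (Unit ⊕ Fin n)).toList.map fun i => (Pi.single i 1 : Unit ⊕ Fin n → ℤ)).length : ℝ) = n + 1 := by
      rw [List.length_map, length_toList, card_univ, Fintype.card_sum, Fintype.card_fin, Fintype.card_unit]
      push_cast
      ring
    rw [h1]
    have h2 : Real.log ((Submodule.span ℤ (Set.range (rel (N : ℤ) (fun i => ((a i).val : ℤ)) (fun k => ((g k).val : ℤ)) z))).toAddSubgroup.index : ℝ) ≤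
        Real.log (N / ∏ i, (L i : ℝ)) := Real.log_le_log (by linarith) hidx
    have h3 : Real.log R ≤ Real.log ρ := Real.log_le_log hR0 hρR
    have h4 : 0 ≤ Real.log (N / ∏ i, (L i : ℝ)) := Real.log_nonneg hone
    have h5 : Real.log ((Submodule.span ℤ (Set.range (rel (N : ℤ) (fun i => ((a i).val : ℤ)) (fun k => ((g k).val : ℤ)) z))).toAddSubgroup.index : ℝ) / Real.log ρ ≤
        Real.log (N / ∏ i, (L i : ℝ)) / Real.log R :=
      div_le_div₀ h4 h2 hlogR h3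
    linarith
  -- the frequencies
  refine ⟨Γ₁ ∪ (Ψ.map fun c => ((c (Sum.inl ()) : ZMod N) - ∑ k, ((round (((fun i => (c (Sum.inl ()) : ℝ) * (a i).val / N +
      c (Sum.inr i)) ᵥ* Ξ⁻¹) k) : ℤ) : ZMod N) * g k)).toFinset, ?_, hone, ?_⟩
  · have h1 : ((Γ₁ ∪ (Ψ.map fun c => ((c (Sum.inl ()) : ZMod N) - ∑ k, ((round (((fun i => (c (Sum.inl ()) : ℝ) * (a i).val / N +
      c (Sum.inr i)) ᵥ* Ξ⁻¹) k) : ℤ) : ZMod N) * g k)).toFinset).card : ℝ) ≤ Γ₁.card + Ψ.length := by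
      have h2 := card_union_le Γ₁ (Ψ.map fun c => ((c (Sum.inl ()) : ZMod N) - ∑ k, ((round (((fun i => (c (Sum.inl ()) : ℝ) * (a i).val / N +
        c (Sum.inr i)) ᵥ* Ξ⁻¹) k) : ℤ) : ZMod N) * g k)).toFinset
      have h3 := List.toFinset_card_le (Ψ.map fun c => ((c (Sum.inl ()) : ZMod N) - ∑ k, ((round (((fun i => (c (Sum.inl ()) : ℝ) * (a i).val / N +
        c (Sum.inr i)) ᵥ* Ξ⁻¹) k) : ℤ) : ZMod N) * g k))
      rw [List.length_map] at h3
      exact_mod_cast h2.trans (Nat.add_le_add_left h3 _)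
    have h4 : Real.log (N / A.card) / Real.log R ≤ Real.log (N / ∏ i, (L i : ℝ)) / Real.log R :=
      div_le_div_of_nonneg_right hA1 hlogR.le
    linarith
  · intro x hx
    have hxA : x ∈ A := hΓ₁' x fun g hg => hx g (mem_union_left _ hg)
    rw [hAmem] at hxA
    obtain ⟨w, hw, hw'⟩ := hxA
    have hwsmall := KK_small Ξ L η hΞη w hw
    obtain ⟨y, hy1, hy2⟩ := hw
    refine last_step a L g z Ξ hg2 hz ρ Ψ hΨ2 x y w hy1 hy2 (fun k => (hw' k).2) (1 / (8 * R)) (1 / (16 * ρ ^ 2))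
      (fun k => (hwsmall k).trans hηLsum) ?_ fun c hc => hx _ (mem_union_right _ ?_)
    · have h1 : (n : ℝ) / 2 * (1 / (16 * ρ ^ 2)) ≤ 1 / (32 * ρ) := by
        rw [div_mul_div_comm, div_le_div_iff₀ (by positivity) (by positivity)]
        have : (n : ℝ) ≤ ρ := by linarith
        calc (n : ℝ) * 1 * (32 * (ρ : ℝ)) ≤ (ρ : ℝ) * 1 * (32 * (ρ : ℝ)) := by gcongr
          _ = 1 * (2 * (16 * (ρ : ℝ) ^ 2)) := by ring
      have h2 : 1 / (8 * R) ≤ 3 / (16 * ρ) := by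
        rw [div_le_div_iff₀ (by positivity) (by positivity)]
        linarith
      have h3 : (3 : ℝ) / (16 * ρ) + 1 / (32 * ρ) ≤ 1 / (4 * ρ) := by
        have : (3 : ℝ) / (16 * ρ) + 1 / (32 * ρ) = (7 / 8) * (1 / (4 * ρ)) := by
          field_simp
          norm_num
        rw [this]
        have h4 : (0 : ℝ) < 1 / (4 * ρ) := by positivity
        linarith
      linarith
    · rw [List.mem_toFinset, List.mem_map]
      exact ⟨c, hc, rfl⟩

end Pool.Agent.TH858.GP
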