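import Mathlib
import Pool.Agent.TH858.GP.Strong

/-!
# Proper progressions contain Bohr sets of small dimension
-/

set_option autoImplicit false

namespace Pool.Agent.TH858.GP

open Finset Matrix

variable {N : ℕ} [NeZero N]

omit [NeZero N] in
/-- extension by zero -/
lemma ev_extend {n d : ℕ} (e : Fin n → Fin d) (he : Function.Injective e) (a : Fin d → ZMod N) (v : Fin n → ℤ) :
    ev a (Function.extend e v 0) = ev (fun k => a (e k)) v := by
  unfold ev
  symm
  refine Fintype.sum_of_injective e he _ _ (fun i hi => ?_) fun k => ?_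
  · rw [Function.extend_apply' _ _ _ (fun h => hi h)]
    simp
  · rw [he.extend_apply]

omit [NeZero N] in
/-- a vector of size `2 L` is a difference of two vectors of size `L` -/
lemma zero_of_inj {d : ℕ} (a : Fin d → ZMod N) (L : Fin d → ℕ) (hinj : Set.InjOn (ev a) (box L))
    (v : Fin d → ℤ) (hv : ∀ i, |v i| ≤ 2 * L i) (h0 : ev a v = 0) : v = 0 := by
  have h1 : (fun i => v i / 2) ∈ (box L : Set (Fin d → ℤ)) := by
    rw [mem_coe, mem_box]
    intro i
    have := abs_le.mp (hv i)
    rw [abs_le]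
    constructor <;> omega
  have h2 : (fun i => v i / 2 - v i) ∈ (box L : Set (Fin d → ℤ)) := by
    rw [mem_coe, mem_box]
    intro i
    have := abs_le.mp (hv i)
    rw [abs_le]
    constructor <;> omega
  have h3 : ev a (fun i => v i / 2 - v i) = ev a (fun i => v i / 2) := by
    have : (fun i => v i / 2 - v i) = (fun i => v i / 2) - v := rfl
    rw [this, ev_sub, h0, sub_zero]
  have h4 := hinj h2 h1 h3
  funext i
  have h5 : v i / 2 - v i = v i / 2 := congrFun h4 i
  rw [Pi.zero_apply]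
  omega

/-- A proper progression contains a Bohr set of small dimension. -/
theorem general {d : ℕ} (a : Fin d → ZMod N) (L : Fin d → ℕ) (hinj : Set.InjOn (ev a) (box L))
    (R : ℝ) (hR : (d : ℝ) + 2 ≤ R) :
    ∃ Γ : Finset (ZMod N), (Γ.card : ℝ) ≤ 175 * d + 1 + 5 * (Real.log (N / (XX a L).card) / Real.log R) ∧
      ∀ x : ZMod N, (∀ g ∈ Γ, CB.nn (g * x) ≤ 1 / (8 * R)) → x ∈ XX a L := by
  classical
  have hNpos : (0 : ℝ) < N := Nat.cast_pos.mpr (NeZero.pos N)
  have hd0 : (0 : ℝ) ≤ d := Nat.cast_nonneg d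
  have hR2 : 2 ≤ R := by linarith
  have hR0 : 0 < R := by linarith
  have hlogR : 0 < Real.log R := Real.log_pos (by linarith)
  obtain ⟨ρ, hρ⟩ : ∃ ρ : ℕ, ρ = ⌈R⌉₊ := ⟨_, rfl⟩
  have hρR : R ≤ ρ := by rw [hρ]; exact Nat.le_ceil R
  have hρR2 : (ρ : ℝ) ≤ R + 1 := by rw [hρ]; exact (Nat.ceil_lt_add_one hR0.le).le
  have hρ2 : (2 : ℝ) ≤ ρ := by linarith
  obtain ⟨S, hS⟩ : ∃ S : ℕ, S = 2 * (160 * ρ ^ 4) + 1 := ⟨_, rfl⟩
  have hS0 : 0 < S := by omega
  obtain ⟨L', hL'⟩ : ∃ L' : Fin d → ℕ, L' = fun i => L i / S := ⟨_, rfl⟩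
  have hL'1 : ∀ i, S * L' i ≤ L i := fun i => by rw [hL']; exact Nat.mul_div_le _ _
  have hL'2 : ∀ i, L i < S * (L' i + 1) := fun i => by
    rw [hL']
    exact Nat.lt_mul_div_succ _ hS0
  obtain ⟨T, hT⟩ : ∃ T : Finset (Fin d), T = univ.filter fun i => 1 ≤ L' i := ⟨_, rfl⟩
  obtain ⟨e, he⟩ : ∃ e : Fin T.card → Fin d, e = T.orderEmbOfFin rfl := ⟨_, rfl⟩
  have heinj : Function.Injective e := by rw [he]; exact (T.orderEmbOfFin rfl).injective
  have heT : ∀ k, e k ∈ T := fun k => by rw [he]; exact T.orderEmbOfFin_mem rfl k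
  have hTd : T.card ≤ d := by
    calc T.card ≤ (univ : Finset (Fin d)).card := card_le_card (subset_univ _)
      _ = d := by simp
  have hTdR : (T.card : ℝ) ≤ d := by exact_mod_cast hTd
  have hext : ∀ (v : Fin T.card → ℤ) (c : ℕ), (∀ k, |v k| ≤ c * L' (e k)) → ∀ i, |Function.extend e v 0 i| ≤ c * L' i := by
    intro v c hv i
    by_cases hi : ∃ k, e k = i
    · obtain ⟨k, rfl⟩ := hi
      rw [heinj.extend_apply]
      exact hv k
    · rw [Function.extend_apply' _ _ _ hi]
      simp
      positivity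
  obtain ⟨Γ, hΓ1, hΓ2, hΓ3⟩ := strong (fun k => a (e k)) (fun k => L' (e k))
    (fun k => by
      have := heT k
      rw [hT, mem_filter] at this
      exact this.2) R (by linarith)
    (fun v hv hv0 => by
      rw [← hρ] at hv
      have h1 := hext v (2 * S) (fun k => by
        have := hv k
        rw [hS]
        push_cast at this ⊢
        linarith)
      have h2 := zero_of_inj a L hinj (Function.extend e v 0) (fun i => by
        refine (h1 i).trans ?_
        have := hL'1 i
        push_cast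
        have h3 : ((S : ℤ) * L' i) ≤ L i := by exact_mod_cast this
        linarith) (by rw [ev_extend e heinj]; exact hv0)
      funext k
      have h3 := congrFun h2 (e k)
      rw [heinj.extend_apply] at h3
      exact h3)
  have hsub : XX (fun k => a (e k)) (fun k => L' (e k)) ⊆ XX a L := by
    intro x hx
    unfold XX at hx ⊢
    rw [mem_image] at hx ⊢
    obtain ⟨m, hm, hmx⟩ := hx
    rw [mem_box] at hm
    refine ⟨Function.extend e m 0, ?_, ?_⟩
    · rw [mem_box]
      intro i
      have h1 := hext m 1 (fun k => by simpa using hm k) i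
      have h2 : L' i ≤ L i := by
        have h3 := hL'1 i
        have h4 : L' i ≤ S * L' i := Nat.le_mul_of_pos_left _ hS0
        omega
      have h3 : ((L' i : ℕ) : ℤ) ≤ L i := by exact_mod_cast h2
      push_cast at h1
      linarith
    · rw [ev_extend e heinj]
      exact hmx
  -- the volume
  have hcard : ((XX a L).card : ℝ) ≤ (4 * (S : ℝ)) ^ d * ∏ k, (L' (e k) : ℝ) := by
    have h1 : (XX a L).card = ∏ i, (2 * L i + 1) := by
      unfold XX
      rw [card_image_of_injOn hinj, card_box]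
    have h2 : ∏ k, (L' (e k) : ℝ) = ∏ i, (if 1 ≤ L' i then (L' i : ℝ) else 1) := by
      have h3 : ∏ k, (L' (e k) : ℝ) = ∏ i, (if i ∈ T then (L' i : ℝ) else 1) := by
        refine Fintype.prod_of_injective e heinj _ _ (fun i hi => ?_) fun k => ?_
        · rw [if_neg]
          intro hiT
          apply hi
          rw [he, Finset.range_orderEmbOfFin]
          exact hiT
        · rw [if_pos (heT k)]
      rw [h3]
      refine prod_congr rfl fun i _ => ?_
      rw [hT]
      simp
    have h4 : (4 * (S : ℝ)) ^ d = ∏ _i : Fin d, (4 * (S : ℝ)) := by simp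
    rw [h1, h2, h4, ← prod_mul_distrib]
    push_cast
    refine prod_le_prod (fun i _ => by positivity) fun i _ => ?_
    have h5 : (L i : ℝ) + 1 ≤ S * (L' i + 1) := by exact_mod_cast hL'2 i
    have hSR : (1 : ℝ) ≤ S := by exact_mod_cast hS0
    by_cases h6 : 1 ≤ L' i
    · rw [if_pos h6]
      have h7 : (1 : ℝ) ≤ L' i := by exact_mod_cast h6
      nlinarith
    · rw [if_neg h6]
      have h7 : (L' i : ℝ) = 0 := by
        have : L' i = 0 := by omega
        rw [this]; simp
      rw [h7] at h5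
      linarith
  have hprod1 : (0 : ℝ) < ∏ k, (L' (e k) : ℝ) := by
    refine prod_pos fun k _ => ?_
    have := heT k
    rw [hT, mem_filter] at this
    exact_mod_cast this.2
  have hXpos : (0 : ℝ) < (XX a L).card := by
    have : (0 : Fin d → ℤ) ∈ box L := by rw [mem_box]; intro i; simp
    exact_mod_cast card_pos.mpr ⟨_, mem_image_of_mem (ev a) this⟩
  have hSpos : (0 : ℝ) < S := by exact_mod_cast hS0
  have hlogS : Real.log (4 * S) ≤ 30 * Real.log R := by
    have h1 : (4 : ℝ) * S ≤ R ^ 30 := by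
      have h2 : (S : ℝ) = 320 * ρ ^ 4 + 1 := by
        rw [hS]; push_cast; ring
      have h3 : (1 : ℝ) ≤ (ρ : ℝ) ^ 4 := one_le_pow₀ (by linarith)
      have h4 : (4 : ℝ) * S ≤ 2048 * ρ ^ 4 := by rw [h2]; linarith
      have h5 : (2048 : ℝ) ≤ (ρ : ℝ) ^ 11 := by
        calc (2048 : ℝ) = 2 ^ 11 := by norm_num
          _ ≤ (ρ : ℝ) ^ 11 := pow_le_pow_left₀ (by norm_num) hρ2 11
      have h6 : (ρ : ℝ) ≤ R ^ 2 := by nlinarith
      calc (4 : ℝ) * S ≤ 2048 * (ρ : ℝ) ^ 4 := h4
        _ ≤ (ρ : ℝ) ^ 11 * (ρ : ℝ) ^ 4 := by gcongr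
        _ = (ρ : ℝ) ^ 15 := by ring
        _ ≤ (R ^ 2) ^ 15 := pow_le_pow_left₀ (by linarith) h6 15
        _ = R ^ 30 := by ring
    have h2 := Real.log_le_log (by positivity) h1
    rw [Real.log_pow] at h2
    push_cast at h2
    exact h2
  have hlog : Real.log (N / ∏ k, (L' (e k) : ℝ)) ≤ Real.log (N / (XX a L).card) + 30 * d * Real.log R := by
    have h1 : (N : ℝ) / ∏ k, (L' (e k) : ℝ) ≤ (N / (XX a L).card) * (4 * (S : ℝ)) ^ d := by
      rw [div_mul_eq_mul_div, div_le_div_iff₀ hprod1 hXpos, mul_assoc]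
      exact mul_le_mul_of_nonneg_left hcard hNpos.le
    have h2 := Real.log_le_log (by positivity) h1
    rw [Real.log_mul (by positivity) (by positivity), Real.log_pow] at h2
    have h3 : (d : ℝ) * Real.log (4 * S) ≤ d * (30 * Real.log R) := mul_le_mul_of_nonneg_left hlogS hd0
    linarith
  refine ⟨Γ, ?_, fun x hx => hsub (hΓ3 x hx)⟩
  have h1 : Real.log (N / ∏ k, (L' (e k) : ℝ)) / Real.log R ≤ Real.log (N / (XX a L).card) / Real.log R + 30 * d := by
    rw [div_add' _ _ _ hlogR.ne']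
    exact div_le_div_of_nonneg_right hlog hlogR.le
  linarith

end Pool.Agent.TH858.GP
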