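import Mathlib
import Pool.Agent.TH858.GP.Gen

/-!
# Proper coset progressions contain Bohr sets of small dimension
-/

set_option autoImplicit false

namespace Pool.Agent.TH858.GP

open Finset Matrix

lemma mem_iff_cast {N : ℕ} [NeZero N] (H : AddSubgroup (ZMod N)) (h M : ℕ) (hh : h = Nat.card H)
    (hN : N = h * M) (hdvd : M ∣ N) (x : ZMod N) : x ∈ H ↔ ZMod.castHom hdvd (ZMod M) x = 0 := by
  have hNpos := NeZero.pos N
  have hh0 : 0 < h := by
    rcases Nat.eq_zero_or_pos h with h0 | h0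
    · rw [h0, zero_mul] at hN; omega
    · exact h0
  have hM0 : 0 < M := by
    rcases Nat.eq_zero_or_pos M with h0 | h0
    · rw [h0, mul_zero] at hN; omega
    · exact h0
  have : NeZero M := ⟨hM0.ne'⟩
  have hle : H ≤ (ZMod.castHom hdvd (ZMod M)).toAddMonoidHom.ker := by
    intro y hy
    rw [AddMonoidHom.mem_ker]
    show ZMod.castHom hdvd (ZMod M) y = 0
    have h1 : Nat.card H • (⟨y, hy⟩ : H) = 0 := card_nsmul_eq_zero'
    have h2 : h • y = 0 := by
      have h6 : ((Nat.card H • (⟨y, hy⟩ : H) : H) : ZMod N) = ((0 : H) : ZMod N) := by rw [h1]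
      rw [AddSubgroup.coe_nsmul, AddSubgroup.coe_zero] at h6
      rw [hh]
      exact h6
    have h3 : ((h * y.val : ℕ) : ZMod N) = 0 := by
      rw [nsmul_eq_mul] at h2
      push_cast
      rw [ZMod.natCast_zmod_val]
      exact h2
    rw [ZMod.natCast_eq_zero_iff] at h3
    have h4 : h * M ∣ h * y.val := hN ▸ h3
    have h5 : M ∣ y.val := Nat.dvd_of_mul_dvd_mul_left hh0 h4
    rw [← ZMod.natCast_zmod_val y, map_natCast, ZMod.natCast_eq_zero_iff]
    exact h5
  have hcard : Nat.card (ZMod.castHom hdvd (ZMod M)).toAddMonoidHom.ker = h := by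
    have h1 := (ZMod.castHom hdvd (ZMod M)).toAddMonoidHom.ker.card_mul_index
    have h2 : (ZMod.castHom hdvd (ZMod M)).toAddMonoidHom.ker.index = M := by
      rw [AddSubgroup.index_ker, AddMonoidHom.range_eq_top.mpr (ZMod.castHom_surjective hdvd)]
      simp
    rw [h2, Nat.card_zmod] at h1
    have h3 : Nat.card (ZMod.castHom hdvd (ZMod M)).toAddMonoidHom.ker * M = h * M := h1.trans hN
    exact Nat.eq_of_mul_eq_mul_right hM0 h3
  have heq : H = (ZMod.castHom hdvd (ZMod M)).toAddMonoidHom.ker := by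
    apply AddSubgroup.eq_of_le_of_card_ge hle
    rw [hcard, hh]
  rw [heq, AddMonoidHom.mem_ker]
  rfl

/-- A proper coset progression contains a Bohr set of small dimension. -/
theorem coset {N : ℕ} [NeZero N] (H : AddSubgroup (ZMod N)) {d : ℕ} (a : Fin d → ZMod N) (L : Fin d → ℕ)
    (hprop : ∀ m m' : Fin d → ℤ, (∀ i, |m i| ≤ L i) → (∀ i, |m' i| ≤ L i) → ev a m - ev a m' ∈ H → m = m')
    (R : ℝ) (hR : (d : ℝ) + 2 ≤ R) :
    ∃ Γ : Finset (ZMod N), (Γ.card : ℝ) ≤ 175 * d + 1 +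
        5 * (Real.log (N / (Nat.card H * (box L).card)) / Real.log R) ∧
      ∀ x : ZMod N, (∀ g ∈ Γ, CB.nn (g * x) ≤ 1 / (8 * R)) → ∃ y ∈ H, ∃ m : Fin d → ℤ,
        (∀ i, |m i| ≤ L i) ∧ x = y + ev a m := by
  classical
  have hNpos := NeZero.pos N
  obtain ⟨h, hh⟩ : ∃ h : ℕ, h = Nat.card H := ⟨_, rfl⟩
  have hdvd0 : h ∣ N := by
    rw [hh]
    have := AddSubgroup.card_addSubgroup_dvd_card H
    rwa [Nat.card_zmod] at this
  obtain ⟨M, hN⟩ := hdvd0
  have hh0 : 0 < h := by
    rcases Nat.eq_zero_or_pos h with h0 | h0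
    · rw [h0, zero_mul] at hN; omega
    · exact h0
  have hM0 : 0 < M := by
    rcases Nat.eq_zero_or_pos M with h0 | h0
    · rw [h0, mul_zero] at hN; omega
    · exact h0
  have : NeZero M := ⟨hM0.ne'⟩
  have hdvd : M ∣ N := ⟨h, by rw [hN, mul_comm]⟩
  obtain ⟨π, hπ⟩ : ∃ π : ZMod N →+* ZMod M, π = ZMod.castHom hdvd (ZMod M) := ⟨_, rfl⟩
  have hker : ∀ x, x ∈ H ↔ π x = 0 := fun x => by rw [hπ]; exact mem_iff_cast H h M hh hN hdvd x
  have hev : ∀ m : Fin d → ℤ, π (ev a m) = ev (fun i => π (a i)) m := fun m => by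
    unfold ev
    rw [map_sum]
    refine sum_congr rfl fun i _ => ?_
    rw [map_mul, map_intCast]
  have hinj : Set.InjOn (ev fun i => π (a i)) (box L) := by
    intro m hm m' hm' hmm
    rw [mem_coe, mem_box] at hm hm'
    refine hprop m m' hm hm' ?_
    rw [hker, map_sub, hev, hev, hmm, sub_self]
  obtain ⟨Γ', hΓ1, hΓ2⟩ := general (fun i => π (a i)) L hinj R hR
  have hX : (XX (fun i => π (a i)) L).card = (box L).card := by
    unfold XX
    rw [card_image_of_injOn hinj]
  rw [hX] at hΓ1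
  refine ⟨Γ'.image fun g => ((g.val * h : ℕ) : ZMod N), ?_, fun x hx => ?_⟩
  · have h1 : ((Γ'.image fun g => ((g.val * h : ℕ) : ZMod N)).card : ℝ) ≤ Γ'.card := by
      exact_mod_cast card_image_le
    have h2 : (N : ℝ) / (Nat.card H * (box L).card) = M / (box L).card := by
      rw [← hh, hN]
      push_cast
      have : (h : ℝ) ≠ 0 := by exact_mod_cast hh0.ne'
      rw [mul_div_mul_left _ _ this]
    rw [h2]
    exact h1.trans hΓ1
  · have h1 : π x ∈ XX (fun i => π (a i)) L := by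
      refine hΓ2 (π x) fun g hg => ?_
      have h2 := hx _ (mem_image_of_mem (fun g : ZMod M => ((g.val * h : ℕ) : ZMod N)) hg)
      have h3 := CB.nint_eq_nn (N := N) (((g.val * h * x.val : ℕ) : ℤ)) (((g.val * h : ℕ) : ZMod N) * x)
        (by push_cast; simp)
      have h4 := CB.nint_eq_nn (N := M) (((g.val * x.val : ℕ) : ℤ)) (g * π x) (by
        have h5 : π x = ((x.val : ℕ) : ZMod M) := by
          rw [← map_natCast π, ZMod.natCast_zmod_val]
        rw [h5]
        push_cast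
        simp)
      have h6 : (((g.val * h * x.val : ℕ) : ℤ) : ℝ) / N = (((g.val * x.val : ℕ) : ℤ) : ℝ) / M := by
        have hNR : (N : ℝ) = h * M := by rw [hN]; push_cast; ring
        have : (h : ℝ) ≠ 0 := by exact_mod_cast hh0.ne'
        have hMR : (M : ℝ) ≠ 0 := by exact_mod_cast hM0.ne'
        rw [hNR]
        push_cast
        field_simp
      rw [← h4, ← h6, h3]
      exact h2
    unfold XX at h1
    rw [mem_image] at h1
    obtain ⟨m, hm, hmx⟩ := h1
    rw [mem_box] at hm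
    refine ⟨x - ev a m, ?_, m, hm, by ring⟩
    rw [hker, map_sub, hev, hmx, sub_self]

end Pool.Agent.TH858.GP
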