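import Mathlib
import Pool.Agent.TH858.GP.Gen

/-!
# Fourier analysis with two sets: a local version of Bogolyubov's argument
-/

set_option autoImplicit false

namespace Pool.Agent.TH858.GP

open Finset Complex
open scoped Pointwise

variable {N : ℕ} [NeZero N]

/-- The number of quadruples. -/
def quad (A B : Finset (ZMod N)) (x : ZMod N) : ℕ :=
  (((A ×ˢ A) ×ˢ (B ×ˢ B)).filter fun p => (p.1.1 - p.1.2) + (p.2.1 - p.2.2) + x = 0).card

lemma fourier2 (A B : Finset (ZMod N)) (x : ZMod N) :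
    ∑ g : ZMod N, wt A g * wt B g * (ψ (g * x)).re = N * quad A B x := by
  have h1 : ∑ g : ZMod N, ((wt A g : ℝ) : ℂ) * ((wt B g : ℝ) : ℂ) * ψ (g * x) = (N : ℂ) * (quad A B x : ℂ) := by
    calc ∑ g : ZMod N, ((wt A g : ℝ) : ℂ) * ((wt B g : ℝ) : ℂ) * ψ (g * x)
        = ∑ g : ZMod N, ∑ p ∈ (A ×ˢ A) ×ˢ (B ×ˢ B), ψ (g * ((p.1.1 - p.1.2) + (p.2.1 - p.2.2) + x)) := by
          refine sum_congr rfl fun g _ => ?_
          rw [wt_expand, wt_expand, sum_mul_sum, ← sum_product', sum_mul]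
          refine sum_congr rfl fun p _ => ?_
          rw [← ψ_add, ← ψ_add]; congr 1; ring
      _ = ∑ p ∈ (A ×ˢ A) ×ˢ (B ×ˢ B), ∑ g : ZMod N, ψ (g * ((p.1.1 - p.1.2) + (p.2.1 - p.2.2) + x)) := sum_comm
      _ = ∑ p ∈ (A ×ˢ A) ×ˢ (B ×ˢ B), (if (p.1.1 - p.1.2) + (p.2.1 - p.2.2) + x = 0 then (N : ℂ) else 0) := by
          refine sum_congr rfl fun p _ => ?_
          have := AddChar.sum_mulShift (R' := ℂ) ((p.1.1 - p.1.2) + (p.2.1 - p.2.2) + x) (ZMod.isPrimitive_stdAddChar N)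
          rw [ZMod.card] at this
          rw [this]
          split_ifs <;> simp
      _ = (N : ℂ) * (quad A B x : ℂ) := by
          rw [← sum_filter, sum_const, nsmul_eq_mul, mul_comm]
          rfl
  have h2 := congrArg Complex.re h1
  rw [Complex.re_sum] at h2
  have h3 : ((N : ℂ) * (quad A B x : ℂ)).re = N * quad A B x := by
    rw [← Nat.cast_mul, Complex.natCast_re]; push_cast; rfl
  rw [h3] at h2
  rw [← h2]
  refine sum_congr rfl fun g _ => ?_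
  rw [← Complex.ofReal_mul, Complex.re_ofReal_mul]

omit [NeZero N] in
lemma energy (A B : Finset (ZMod N)) :
    ((A.card : ℝ) * B.card) ^ 2 ≤ ((A + B).card : ℝ) * quad A B 0 := by
  have h1 := Finset.le_card_add_mul_addEnergy A B
  have h2 : quad A B 0 = Finset.addEnergy A B := by
    unfold quad Finset.addEnergy
    congr 1
    refine filter_congr fun p _ => ?_
    constructor
    · intro h
      linear_combination h
    · intro h
      linear_combination h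
  rw [h2, mul_pow]
  exact_mod_cast h1

omit [NeZero N] in
lemma mem_of_quad (A B : Finset (ZMod N)) (x : ZMod N) (h : 0 < quad A B x) :
    ∃ a₁ ∈ A, ∃ a₂ ∈ B, ∃ a₃ ∈ A, ∃ a₄ ∈ B, x = a₁ + a₂ - a₃ - a₄ := by
  unfold quad at h
  rw [card_pos] at h
  obtain ⟨p, hp⟩ := h
  rw [mem_filter, mem_product, mem_product, mem_product] at hp
  obtain ⟨⟨⟨h1, h2⟩, h3, h4⟩, h5⟩ := hp
  exact ⟨_, h2, _, h4, _, h1, _, h3, by linear_combination h5⟩

/-- The positivity step of Bogolyubov's argument. -/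
lemma bogo (A B : Finset (ZMod N)) (e₀ : ℝ) (he : 0 < e₀) (hA : A.Nonempty) (hB : B.Nonempty)
    (hen : e₀ * (A.card * (B.card : ℝ) ^ 2) ≤ quad A B 0) (x : ZMod N)
    (hx : ∀ g, e₀ / 4 * (B.card : ℝ) ^ 2 ≤ wt B g → 1 / 2 ≤ (ψ (g * x)).re) : 0 < quad A B x := by
  classical
  have hNpos : (0 : ℝ) < N := Nat.cast_pos.mpr (NeZero.pos N)
  have hAp : (0 : ℝ) < A.card := by exact_mod_cast hA.card_pos
  have hBp : (0 : ℝ) < B.card := by exact_mod_cast hB.card_pos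
  obtain ⟨S, hS⟩ : ∃ S : Finset (ZMod N), S = univ.filter fun g => e₀ / 4 * (B.card : ℝ) ^ 2 ≤ wt B g := ⟨_, rfl⟩
  have hF := fourier2 A B x
  have hF0 := fourier2 A B 0
  have hF0' : ∑ g : ZMod N, wt A g * wt B g = N * quad A B 0 := by
    rw [← hF0]
    refine sum_congr rfl fun g _ => ?_
    rw [mul_zero, ψ_zero, Complex.one_re, mul_one]
  have hcomp : ∑ g ∈ Sᶜ, wt A g * wt B g ≤ e₀ / 4 * (B.card : ℝ) ^ 2 * (N * A.card) := by
    calc ∑ g ∈ Sᶜ, wt A g * wt B g ≤ ∑ g ∈ Sᶜ, wt A g * (e₀ / 4 * (B.card : ℝ) ^ 2) := by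
          refine sum_le_sum fun g hg => mul_le_mul_of_nonneg_left ?_ (wt_nonneg _ _)
          rw [mem_compl, hS, mem_filter] at hg
          push Not at hg
          exact (hg (mem_univ g)).le
      _ ≤ ∑ g : ZMod N, wt A g * (e₀ / 4 * (B.card : ℝ) ^ 2) := by
          refine sum_le_sum_of_subset_of_nonneg (subset_univ _) fun g _ _ => ?_
          have := wt_nonneg A g
          positivity
      _ = e₀ / 4 * (B.card : ℝ) ^ 2 * (N * A.card) := by
          rw [← sum_mul, sum_wt]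
          ring
  rw [← sum_add_sum_compl S] at hF hF0'
  have h1 : (1 / 2) * ∑ g ∈ S, wt A g * wt B g ≤ ∑ g ∈ S, wt A g * wt B g * (ψ (g * x)).re := by
    rw [mul_sum]
    refine sum_le_sum fun g hg => ?_
    rw [hS, mem_filter] at hg
    have := hx g hg.2
    have := mul_nonneg (wt_nonneg A g) (wt_nonneg B g)
    nlinarith
  have h2 : -∑ g ∈ Sᶜ, wt A g * wt B g ≤ ∑ g ∈ Sᶜ, wt A g * wt B g * (ψ (g * x)).re := by
    rw [← sum_neg_distrib]
    refine sum_le_sum fun g _ => ?_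
    have h3 : -1 ≤ (ψ (g * x)).re := by
      have := Complex.abs_re_le_norm (ψ (g * x))
      rw [ψ_norm] at this
      exact (abs_le.mp this).1
    have := mul_nonneg (wt_nonneg A g) (wt_nonneg B g)
    nlinarith
  have h4 : (N : ℝ) * (e₀ * (A.card * (B.card : ℝ) ^ 2)) ≤ N * quad A B 0 := mul_le_mul_of_nonneg_left hen hNpos.le
  have h5 : (0 : ℝ) < N * (e₀ * (A.card * (B.card : ℝ) ^ 2)) := by positivity
  have h6 : (0 : ℝ) < N * quad A B x := by
    rw [← hF]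
    have e1 : e₀ / 4 * (B.card : ℝ) ^ 2 * (N * A.card) = (1 / 4) * (N * (e₀ * (A.card * (B.card : ℝ) ^ 2))) := by ring
    rw [e1] at hcomp
    linarith
  by_contra h
  have h7 : quad A B x = 0 := by omega
  rw [h7, Nat.cast_zero, mul_zero] at h6
  exact lt_irrefl _ h6

/-- Almost invariance of a set under a shift. -/
lemma shift (X : Finset (ZMod N)) (g x : ZMod N) :
    ‖∑ y ∈ X, ψ (g * y)‖ * ‖ψ (g * x) - 1‖ ≤ 2 * (X.card - cnt X x) := by
  classical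
  obtain ⟨X', hX'⟩ : ∃ X' : Finset (ZMod N), X' = X.filter fun y => y + x ∈ X := ⟨_, rfl⟩
  have hcnt : cnt X x = X'.card := by
    unfold cnt
    symm
    refine card_bij (fun y _ => (y, y + x)) ?_ ?_ ?_
    · intro y hy
      rw [hX', mem_filter] at hy
      rw [mem_filter, mem_product]
      refine ⟨⟨hy.1, hy.2⟩, ?_⟩
      change y - (y + x) + x = 0
      ring
    · intro y _ y' _ h
      exact (Prod.mk.inj h).1
    · rintro ⟨p, q⟩ hp
      rw [mem_filter, mem_product] at hp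
      have h1 : q = p + x := by
        have := hp.2
        change p - q + x = 0 at this
        linear_combination -this
      refine ⟨p, ?_, by rw [h1]⟩
      rw [hX', mem_filter]
      exact ⟨hp.1.1, by rw [← h1]; exact hp.1.2⟩
  have hsub : X' ⊆ X := by rw [hX']; exact filter_subset _ _
  obtain ⟨X'', hX''⟩ : ∃ X'' : Finset (ZMod N), X'' = X'.image fun y => y + x := ⟨_, rfl⟩
  have hsub2 : X'' ⊆ X := by
    rw [hX'']
    intro y hy
    rw [mem_image] at hy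
    obtain ⟨y', hy', rfl⟩ := hy
    rw [hX', mem_filter] at hy'
    exact hy'.2
  have hcard2 : X''.card = X'.card := by
    rw [hX'']
    exact card_image_of_injective _ (add_left_injective x)
  have e1 : (∑ y ∈ X, ψ (g * y)) * (ψ (g * x) - 1) =
      ∑ y ∈ X \ X', ψ (g * (y + x)) - ∑ y ∈ X \ X'', ψ (g * y) := by
    have e2 : ∑ y ∈ X, ψ (g * (y + x)) = ∑ y ∈ X \ X', ψ (g * (y + x)) + ∑ y ∈ X', ψ (g * (y + x)) :=
      (sum_sdiff hsub).symm
    have e3 : ∑ y ∈ X, ψ (g * y) = ∑ y ∈ X \ X'', ψ (g * y) + ∑ y ∈ X'', ψ (g * y) :=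
      (sum_sdiff hsub2).symm
    have e4 : ∑ y ∈ X'', ψ (g * y) = ∑ y ∈ X', ψ (g * (y + x)) := by
      rw [hX'', sum_image fun a _ b _ h => add_left_injective x h]
    have e5 : (∑ y ∈ X, ψ (g * y)) * ψ (g * x) = ∑ y ∈ X, ψ (g * (y + x)) := by
      rw [sum_mul]
      refine sum_congr rfl fun y _ => ?_
      rw [← ψ_add]; congr 1; ring
    rw [mul_sub, e5, mul_one, e2, e3, e4]
    ring
  have hn : ∀ (Y : Finset (ZMod N)) (f : ZMod N → ZMod N), ‖∑ y ∈ Y, ψ (f y)‖ ≤ Y.card := by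
    intro Y f
    refine (norm_sum_le _ _).trans ?_
    rw [sum_congr rfl fun y _ => ψ_norm (f y)]
    simp
  rw [← norm_mul, e1]
  refine (norm_sub_le _ _).trans ?_
  have h1 := hn (X \ X') fun y => g * (y + x)
  have h2 := hn (X \ X'') fun y => g * y
  rw [card_sdiff_of_subset hsub, Nat.cast_sub (card_le_card hsub)] at h1
  rw [card_sdiff_of_subset hsub2, Nat.cast_sub (card_le_card hsub2), hcard2] at h2
  rw [hcnt]
  linarith

lemma norm_ψ_sub_one_le (c : ZMod N) : ‖ψ c - 1‖ ≤ 2 * Real.pi * CB.nn c := by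
  obtain ⟨θ, hθ⟩ : ∃ θ : ℝ, θ = (c.val : ℝ) / N + ((-round ((c.val : ℝ) / N) : ℤ) : ℝ) := ⟨_, rfl⟩
  have hnn : CB.nn c = |θ| := by
    rw [hθ]
    unfold CB.nn CB.nint
    congr 1
    push_cast
    ring
  have h1 : ψ c = Complex.exp (I * ((2 * Real.pi * θ : ℝ) : ℂ)) := by
    rw [ψ_eq c (-round ((c.val : ℝ) / N)), ← hθ]
    congr 1
    push_cast
    ring
  rw [h1, hnn]
  refine Real.norm_exp_I_mul_ofReal_sub_one_le.trans (le_of_eq ?_)
  rw [Real.norm_eq_abs, abs_mul, abs_of_pos (by positivity : (0 : ℝ) < 2 * Real.pi)]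

lemma norm_ψ_sub_one_neg (c : ZMod N) : ‖ψ (-c) - 1‖ = ‖ψ c - 1‖ := by
  rw [ψ_neg, ← Complex.norm_conj (ψ c - 1), map_sub, map_one]

lemma norm_ψ_sub_one_add (b c : ZMod N) : ‖ψ (b + c) - 1‖ ≤ ‖ψ b - 1‖ + ‖ψ c - 1‖ := by
  have h1 : ψ (b + c) - 1 = ψ b * (ψ c - 1) + (ψ b - 1) := by rw [ψ_add]; ring
  rw [h1]
  refine (norm_add_le _ _).trans ?_
  rw [norm_mul, ψ_norm, one_mul, add_comm]

lemma norm_ψ_sub_one_sum {ι : Type*} (s : Finset ι) (f : ι → ZMod N) :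
    ‖ψ (∑ i ∈ s, f i) - 1‖ ≤ ∑ i ∈ s, ‖ψ (f i) - 1‖ := by
  classical
  induction s using Finset.induction_on with
  | empty => simp
  | insert i s hi ih =>
    rw [sum_insert hi, sum_insert hi]
    exact (norm_ψ_sub_one_add _ _).trans (add_le_add le_rfl ih)

/-- A progression is almost invariant under small elements. -/
lemma shift_prog {n : ℕ} (a : Fin n → ZMod N) (S : Fin n → ℕ) (hinj : Set.InjOn (ev a) (box S)) (g : ZMod N)
    (m : Fin n → ℤ) (hm : ∀ i, |m i| ≤ 2 * S i) :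
    ‖∑ y ∈ XX a S, ψ (g * y)‖ * ‖ψ (g * ev a m) - 1‖ ≤
      2 * (XX a S).card * ∑ i, |(m i : ℝ)| / (2 * S i + 1) := by
  have h1 : g * ev a m = ∑ i, g * ((m i : ZMod N) * a i) := by
    unfold ev
    rw [mul_sum]
  rw [h1]
  calc ‖∑ y ∈ XX a S, ψ (g * y)‖ * ‖ψ (∑ i, g * ((m i : ZMod N) * a i)) - 1‖
      ≤ ‖∑ y ∈ XX a S, ψ (g * y)‖ * ∑ i, ‖ψ (g * ((m i : ZMod N) * a i)) - 1‖ :=
        mul_le_mul_of_nonneg_left (norm_ψ_sub_one_sum _ _) (norm_nonneg _)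
    _ = ∑ i, ‖∑ y ∈ XX a S, ψ (g * y)‖ * ‖ψ (g * ((m i : ZMod N) * a i)) - 1‖ := by rw [mul_sum]
    _ ≤ ∑ i, 2 * (XX a S).card * (|(m i : ℝ)| / (2 * S i + 1)) := by
        refine sum_le_sum fun i _ => ?_
        obtain ⟨j, hj⟩ : ∃ j : ℕ, j = (m i).natAbs := ⟨_, rfl⟩
        have hjS : j ≤ 2 * S i := by
          have h0 := hm i
          rw [Int.abs_eq_natAbs, ← hj] at h0
          omega
        have hjR : |(m i : ℝ)| = j := by
          rw [hj, Nat.cast_natAbs, Int.cast_abs]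
        have h2 : ‖ψ (g * ((m i : ZMod N) * a i)) - 1‖ = ‖ψ (g * ((j : ZMod N) * a i)) - 1‖ := by
          rcases Int.natAbs_eq (m i) with h | h
          · rw [h, ← hj]
            push_cast
            rfl
          · rw [h, ← hj, ← norm_ψ_sub_one_neg]
            congr 3
            push_cast
            ring
        rw [h2, hjR]
        have h3 := shift (XX a S) g ((j : ZMod N) * a i)
        have h4 := cnt_ge a S hinj i j hjS
        calc _ ≤ 2 * (((XX a S).card : ℝ) - cnt (XX a S) ((j : ZMod N) * a i)) := h3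
          _ ≤ 2 * ((XX a S).card * ((j : ℝ) / (2 * S i + 1))) := by linarith
          _ = _ := by ring
    _ = _ := by rw [mul_sum]

/-- The Bessel inequality for almost orthogonal characters. -/
lemma bessel (B X Λ : Finset (ZMod N)) (hBX : B ⊆ X) (τ : ℝ) (hτ : 0 ≤ τ)
    (hΛ : ∀ l ∈ Λ, ∀ l' ∈ Λ, l ≠ l' → ‖∑ y ∈ X, ψ ((l - l') * y)‖ ≤ τ * X.card) :
    ∑ l ∈ Λ, wt B l ≤ B.card * X.card * (1 + τ * Λ.card) := by
  classical
  obtain ⟨c, hc⟩ : ∃ c : ZMod N → ℂ, c = fun l => ∑ y ∈ B, ψ (l * y) := ⟨_, rfl⟩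
  obtain ⟨S, hS⟩ : ∃ S : ℝ, S = ∑ l ∈ Λ, wt B l := ⟨_, rfl⟩
  have hwt : ∀ l, wt B l = ‖c l‖ ^ 2 := fun l => by rw [hc]; rfl
  obtain ⟨F, hF⟩ : ∃ F : ZMod N → ℂ, F = fun y => ∑ l ∈ Λ, (starRingEnd ℂ) (c l) * ψ (l * y) := ⟨_, rfl⟩
  have hS0 : 0 ≤ S := by
    rw [hS]
    exact sum_nonneg fun l _ => wt_nonneg _ _
  rw [← hS]
  have h1 : ((S : ℝ) : ℂ) = ∑ y ∈ B, F y := by
    rw [hS, hF, sum_comm, Complex.ofReal_sum]
    refine sum_congr rfl fun l _ => ?_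
    rw [← mul_sum, hwt]
    have : ∑ y ∈ B, ψ (l * y) = c l := by rw [hc]
    rw [this, mul_comm, Complex.mul_conj, Complex.normSq_eq_norm_sq]
  have h2 : S ≤ ∑ y ∈ B, ‖F y‖ := by
    have : ‖((S : ℝ) : ℂ)‖ = S := by rw [Complex.norm_real, Real.norm_of_nonneg hS0]
    rw [← this, h1]
    exact norm_sum_le _ _
  have h3 : S ^ 2 ≤ B.card * ∑ y ∈ X, ‖F y‖ ^ 2 := by
    calc S ^ 2 ≤ (∑ y ∈ B, ‖F y‖) ^ 2 := pow_le_pow_left₀ hS0 h2 2
      _ ≤ B.card * ∑ y ∈ B, ‖F y‖ ^ 2 := sq_sum_le_card_mul_sum_sq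
      _ ≤ B.card * ∑ y ∈ X, ‖F y‖ ^ 2 := by
          refine mul_le_mul_of_nonneg_left ?_ (Nat.cast_nonneg _)
          exact sum_le_sum_of_subset_of_nonneg hBX fun y _ _ => by positivity
  have h4 : ∑ y ∈ X, ‖F y‖ ^ 2 ≤ X.card * (1 + τ * Λ.card) * S := by
    have e1 : ((∑ y ∈ X, ‖F y‖ ^ 2 : ℝ) : ℂ) =
        ∑ l ∈ Λ, ∑ l' ∈ Λ, (starRingEnd ℂ) (c l) * c l' * ∑ y ∈ X, ψ ((l - l') * y) := by
      have e2 : ∀ y, ((‖F y‖ ^ 2 : ℝ) : ℂ) = ∑ l ∈ Λ, ∑ l' ∈ Λ, (starRingEnd ℂ) (c l) * c l' * ψ ((l - l') * y) := by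
        intro y
        rw [← Complex.normSq_eq_norm_sq, ← Complex.mul_conj, hF]
        simp only [map_sum]
        rw [sum_mul_sum]
        refine sum_congr rfl fun l _ => sum_congr rfl fun l' _ => ?_
        rw [map_mul, Complex.conj_conj, ← ψ_neg]
        have : ψ ((l - l') * y) = ψ (l * y) * ψ (-(l' * y)) := by
          rw [← ψ_add]; congr 1; ring
        rw [this]
        ring
      rw [Complex.ofReal_sum, sum_congr rfl fun y _ => e2 y, sum_comm]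
      refine sum_congr rfl fun l _ => ?_
      rw [sum_comm]
      refine sum_congr rfl fun l' _ => ?_
      rw [mul_sum]
    have e3 : (∑ y ∈ X, ‖F y‖ ^ 2 : ℝ) ≤ ∑ l ∈ Λ, ∑ l' ∈ Λ, ‖c l‖ * ‖c l'‖ * ‖∑ y ∈ X, ψ ((l - l') * y)‖ := by
      have h0 : 0 ≤ (∑ y ∈ X, ‖F y‖ ^ 2 : ℝ) := sum_nonneg fun y _ => by positivity
      have : ‖((∑ y ∈ X, ‖F y‖ ^ 2 : ℝ) : ℂ)‖ = ∑ y ∈ X, ‖F y‖ ^ 2 := by
        rw [Complex.norm_real, Real.norm_of_nonneg h0]
      rw [← this, e1]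
      refine (norm_sum_le _ _).trans (sum_le_sum fun l _ => (norm_sum_le _ _).trans (sum_le_sum fun l' _ => ?_))
      rw [norm_mul, norm_mul, Complex.norm_conj]
    have e4 : ∑ l ∈ Λ, ∑ l' ∈ Λ, ‖c l‖ * ‖c l'‖ * ‖∑ y ∈ X, ψ ((l - l') * y)‖ ≤
        ∑ l ∈ Λ, ∑ l' ∈ Λ, (‖c l‖ * ‖c l'‖ * (τ * X.card) + (if l = l' then ‖c l‖ ^ 2 * X.card else 0)) := by
      refine sum_le_sum fun l hl => sum_le_sum fun l' hl' => ?_
      split_ifs with h
      · subst h
        have : ‖∑ y ∈ X, ψ ((l - l) * y)‖ ≤ X.card := by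
          refine (norm_sum_le _ _).trans ?_
          rw [sum_congr rfl fun y _ => ψ_norm _]
          simp
        have h5 : 0 ≤ ‖c l‖ * ‖c l‖ * (τ * X.card) := by positivity
        have h6 : ‖c l‖ * ‖c l‖ * ‖∑ y ∈ X, ψ ((l - l) * y)‖ ≤ ‖c l‖ * ‖c l‖ * X.card :=
          mul_le_mul_of_nonneg_left this (by positivity)
        nlinarith
      · rw [add_zero]
        exact mul_le_mul_of_nonneg_left (hΛ l hl l' hl' h) (by positivity)
    have e5 : ∑ l ∈ Λ, ∑ l' ∈ Λ, (‖c l‖ * ‖c l'‖ * (τ * X.card) + (if l = l' then ‖c l‖ ^ 2 * X.card else 0)) =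
        (∑ l ∈ Λ, ‖c l‖) ^ 2 * (τ * X.card) + S * X.card := by
      simp_rw [sum_add_distrib]
      congr 1
      · rw [sq, sum_mul_sum, sum_mul]
        refine sum_congr rfl fun l _ => ?_
        rw [sum_mul]
      · rw [hS, sum_mul]
        refine sum_congr rfl fun l hl => ?_
        rw [sum_ite_eq Λ l, if_pos hl, hwt]
    have e6 : (∑ l ∈ Λ, ‖c l‖) ^ 2 ≤ Λ.card * S := by
      rw [hS, sum_congr rfl fun l _ => hwt l]
      exact sq_sum_le_card_mul_sum_sq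
    have e7 : (∑ l ∈ Λ, ‖c l‖) ^ 2 * (τ * X.card) ≤ Λ.card * S * (τ * X.card) :=
      mul_le_mul_of_nonneg_right e6 (by positivity)
    calc _ ≤ _ := e3.trans e4
      _ = _ := e5
      _ ≤ Λ.card * S * (τ * X.card) + S * X.card := by linarith
      _ = _ := by ring
  rcases hS0.eq_or_lt with h0 | h0
  · rw [← h0]
    positivity
  · have h5 : S * S ≤ (B.card * X.card * (1 + τ * Λ.card)) * S := by
      calc S * S = S ^ 2 := (sq S).symm
        _ ≤ B.card * ∑ y ∈ X, ‖F y‖ ^ 2 := h3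
        _ ≤ B.card * (X.card * (1 + τ * Λ.card) * S) := mul_le_mul_of_nonneg_left h4 (Nat.cast_nonneg _)
        _ = _ := by ring
    exact le_of_mul_le_mul_right h5 h0

end Pool.Agent.TH858.GP
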