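import Mathlib
import Pool.Agent.TH858.GP.Two

/-!
# Dense subsets of proper progressions
-/

set_option autoImplicit false

namespace Pool.Agent.TH858.GP

open Finset
open scoped Pointwise

variable {N : ℕ} [NeZero N]

lemma norm_hat_neg (X : Finset (ZMod N)) (g : ZMod N) :
    ‖∑ y ∈ X, ψ (-g * y)‖ = ‖∑ y ∈ X, ψ (g * y)‖ := by
  rw [← Complex.norm_conj (∑ y ∈ X, ψ (g * y)), map_sum]
  congr 1
  refine sum_congr rfl fun y _ => ?_
  rw [← ψ_neg]
  congr 1
  ring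

lemma norm_hat_translate (X : Finset (ZMod N)) (u g : ZMod N) :
    ‖∑ y ∈ X.image (fun z => u + z), ψ (g * y)‖ = ‖∑ y ∈ X, ψ (g * y)‖ := by
  classical
  rw [sum_image fun a _ b _ h => add_right_injective u h]
  have : ∀ y, ψ (g * (u + y)) = ψ (g * u) * ψ (g * y) := fun y => by
    rw [← ψ_add]; congr 1; ring
  rw [sum_congr rfl fun y _ => this y, ← mul_sum, norm_mul, ψ_norm, one_mul]

/-- A maximal family of almost orthogonal characters. -/
lemma exists_maxfam (X S : Finset (ZMod N)) (τ : ℝ) :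
    ∃ Λ ⊆ S, (∀ l ∈ Λ, ∀ l' ∈ Λ, l ≠ l' → ‖∑ y ∈ X, ψ ((l - l') * y)‖ ≤ τ) ∧
      ∀ γ ∈ S, γ ∈ Λ ∨ ∃ l ∈ Λ, τ < ‖∑ y ∈ X, ψ ((γ - l) * y)‖ := by
  classical
  obtain ⟨T, hT⟩ : ∃ T : Finset (Finset (ZMod N)), T = S.powerset.filter fun Λ =>
    ∀ l ∈ Λ, ∀ l' ∈ Λ, l ≠ l' → ‖∑ y ∈ X, ψ ((l - l') * y)‖ ≤ τ := ⟨_, rfl⟩
  have hTne : T.Nonempty := by
    refine ⟨∅, ?_⟩
    rw [hT, mem_filter]
    exact ⟨by simp, fun l hl => absurd hl (notMem_empty l)⟩
  obtain ⟨Λ, hΛ, hmax⟩ := exists_max_image T (fun Λ => Λ.card) hTne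
  have hΛ' := hΛ
  rw [hT, mem_filter, mem_powerset] at hΛ'
  refine ⟨Λ, hΛ'.1, hΛ'.2, fun γ hγ => ?_⟩
  by_contra hcon
  push Not at hcon
  obtain ⟨h1, h2⟩ := hcon
  have h3 : insert γ Λ ∈ T := by
    rw [hT, mem_filter, mem_powerset]
    refine ⟨insert_subset hγ hΛ'.1, fun l hl l' hl' hne => ?_⟩
    rw [mem_insert] at hl hl'
    rcases hl with rfl | hl
    · rcases hl' with rfl | hl'
      · exact absurd rfl hne
      · exact h2 l' hl'
    · rcases hl' with rfl | hl'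
      · rw [← norm_hat_neg, neg_sub]
        exact h2 l hl
      · exact hΛ'.2 l hl l' hl' hne
  have h4 := hmax _ h3
  rw [card_insert_of_notMem h1] at h4
  omega

lemma re_ge_half (c : ZMod N) (h : ‖ψ c - 1‖ ≤ 1) : 1 / 2 ≤ (ψ c).re := by
  have h1 : ‖ψ c - 1‖ ^ 2 = 2 - 2 * (ψ c).re := by
    rw [← Complex.normSq_eq_norm_sq, Complex.normSq_apply]
    simp only [Complex.sub_re, Complex.sub_im, Complex.one_re, Complex.one_im, sub_zero]
    have h2 : (ψ c).re * (ψ c).re + (ψ c).im * (ψ c).im = 1 := by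
      rw [← Complex.normSq_apply, Complex.normSq_eq_norm_sq, ψ_norm]; norm_num
    nlinarith
  have h2 : ‖ψ c - 1‖ ^ 2 ≤ 1 := pow_le_one₀ (norm_nonneg _) h
  linarith

lemma exp_half_le : Real.exp (1 / 2) ≤ 2 := by
  have h1 : Real.exp (1 / 2) ^ 2 = Real.exp 1 := by
    rw [← Real.exp_nat_mul]; norm_num
  have h2 := Real.exp_one_lt_d9
  have h3 := Real.exp_pos (1 / 2)
  nlinarith

omit [NeZero N] in
lemma card_XX_le {d : ℕ} (a : Fin d → ZMod N) (L : Fin d → ℕ) : (XX a L).card ≤ ∏ i, (2 * L i + 1) := by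
  unfold XX
  exact card_image_le.trans (card_box L).le

omit [NeZero N] in
/-- The sum of a long and a short progression is not much larger than the long one. -/
lemma card_sum_le {d : ℕ} (a : Fin d → ZMod N) (L L₂ : Fin d → ℕ) (hinj : Set.InjOn (ev a) (box L)) (ρ : ℕ)
    (hρ : 0 < ρ) (hd : d ≤ ρ) (hL : ∀ i, 2 * ρ * L₂ i ≤ L i) :
    ((XX a (fun i => L i + L₂ i)).card : ℝ) ≤ 2 * (XX a L).card := by
  have hρR : (0 : ℝ) < ρ := by exact_mod_cast hρ
  have h1 : ((XX a (fun i => L i + L₂ i)).card : ℝ) ≤ ∏ i, (2 * ((L i : ℝ) + L₂ i) + 1) := by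
    exact_mod_cast card_XX_le a fun i => L i + L₂ i
  have h2 : ((XX a L).card : ℝ) = ∏ i, (2 * (L i : ℝ) + 1) := by
    have : (XX a L).card = ∏ i, (2 * L i + 1) := by
      unfold XX
      rw [card_image_of_injOn hinj, card_box]
    rw [this]
    push_cast
    rfl
  have h3 : ∏ i, (2 * ((L i : ℝ) + L₂ i) + 1) ≤ ∏ i, ((1 + 1 / (2 * ρ)) * (2 * (L i : ℝ) + 1)) := by
    refine prod_le_prod (fun i _ => by positivity) fun i _ => ?_
    have h4 : 2 * (ρ : ℝ) * L₂ i ≤ L i := by exact_mod_cast hL i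
    have h5 : 2 * (L₂ i : ℝ) ≤ 1 / (2 * ρ) * (2 * (L i : ℝ) + 1) := by
      rw [one_div_mul_eq_div, le_div_iff₀ (by positivity)]
      nlinarith
    nlinarith
  rw [prod_mul_distrib, prod_const, card_univ, Fintype.card_fin, ← h2] at h3
  refine h1.trans (h3.trans ?_)
  refine mul_le_mul_of_nonneg_right ?_ (Nat.cast_nonneg _)
  calc (1 + 1 / (2 * (ρ : ℝ))) ^ d ≤ Real.exp (1 / (2 * ρ)) ^ d := by
        refine pow_le_pow_left₀ (by positivity) ?_ d
        have := Real.add_one_le_exp (1 / (2 * (ρ : ℝ)))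
        linarith
    _ = Real.exp (d * (1 / (2 * ρ))) := by rw [← Real.exp_nat_mul]
    _ ≤ Real.exp (1 / 2) := by
        apply Real.exp_le_exp.2
        have : (d : ℝ) ≤ ρ := by exact_mod_cast hd
        rw [mul_one_div, div_le_div_iff₀ (by positivity) (by norm_num)]
        linarith
    _ ≤ 2 := exp_half_le

omit [NeZero N] in
lemma sub_mem_XX {d : ℕ} (a : Fin d → ZMod N) (L L₂ : Fin d → ℕ) (x y : ZMod N) (hx : x ∈ XX a L)
    (hy : y ∈ XX a L₂) : x - y ∈ XX a (fun i => L i + L₂ i) := by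
  unfold XX at hx hy ⊢
  rw [mem_image] at hx hy ⊢
  obtain ⟨m, hm, rfl⟩ := hx
  obtain ⟨m', hm', rfl⟩ := hy
  rw [mem_box] at hm hm'
  refine ⟨m - m', ?_, ev_sub a m m'⟩
  rw [mem_box]
  intro i
  rw [Pi.sub_apply]
  refine (abs_sub _ _).trans ?_
  push_cast
  exact add_le_add (hm i) (hm' i)

omit [NeZero N] in
lemma add_mem_XX {d : ℕ} (a : Fin d → ZMod N) (L L₂ : Fin d → ℕ) (x y : ZMod N) (hx : x ∈ XX a L)
    (hy : y ∈ XX a L₂) : x + y ∈ XX a (fun i => L i + L₂ i) := by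
  unfold XX at hx hy ⊢
  rw [mem_image] at hx hy ⊢
  obtain ⟨m, hm, rfl⟩ := hx
  obtain ⟨m', hm', rfl⟩ := hy
  rw [mem_box] at hm hm'
  refine ⟨m + m', ?_, ev_add a m m'⟩
  rw [mem_box]
  intro i
  rw [Pi.add_apply]
  refine (abs_add_le _ _).trans ?_
  push_cast
  exact add_le_add (hm i) (hm' i)

omit [NeZero N] in
/-- The averaging argument. -/
lemma exists_dense_translate (A X : Finset (ZMod N)) (K : ℝ) (hK : 0 < K) (hA : A.Nonempty) (hX : X.Nonempty)
    (hU : (((A ×ˢ X).image fun p => p.1 - p.2).card : ℝ) ≤ K) :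
    ∃ u : ZMod N, (A.card : ℝ) * X.card ≤ K * (A.filter fun y => y - u ∈ X).card := by
  classical
  by_contra hcon
  push Not at hcon
  obtain ⟨U, hUdef⟩ : ∃ U : Finset (ZMod N), U = (A ×ˢ X).image fun p => p.1 - p.2 := ⟨_, rfl⟩
  rw [← hUdef] at hU
  have h1 : (A ×ˢ X).card = ∑ u ∈ U, ((A ×ˢ X).filter fun p => p.1 - p.2 = u).card := by
    refine card_eq_sum_card_fiberwise fun p hp => ?_
    rw [hUdef]
    exact mem_coe.2 (mem_image_of_mem _ (mem_coe.1 hp))
  have h2 : ∀ u, ((A ×ˢ X).filter fun p => p.1 - p.2 = u).card ≤ (A.filter fun y => y - u ∈ X).card := by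
    intro u
    refine card_le_card_of_injOn (fun p => p.1) ?_ ?_
    · intro p hp
      rw [mem_coe, mem_filter, mem_product] at hp
      rw [mem_coe, mem_filter]
      refine ⟨hp.1.1, ?_⟩
      have : p.1 - u = p.2 := by rw [← hp.2]; ring
      rw [this]
      exact hp.1.2
    · intro p hp q hq h
      rw [mem_coe, mem_filter] at hp hq
      have h3 : p.1 = q.1 := h
      have h4 : p.2 = q.2 := by
        have h5 := hp.2.trans hq.2.symm
        rw [h3] at h5
        exact sub_right_injective h5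
      exact Prod.ext h3 h4
  have hne : U.Nonempty := by
    rw [hUdef]
    exact (hA.product hX).image _
  have h3 : K * ((A ×ˢ X).card : ℝ) < K * ((A ×ˢ X).card : ℝ) := by
    calc K * ((A ×ˢ X).card : ℝ) = ∑ u ∈ U, K * (((A ×ˢ X).filter fun p => p.1 - p.2 = u).card : ℝ) := by
          rw [h1, ← mul_sum]
          push_cast
          rfl
      _ ≤ ∑ u ∈ U, K * ((A.filter fun y => y - u ∈ X).card : ℝ) := by
          refine sum_le_sum fun u _ => mul_le_mul_of_nonneg_left ?_ hK.le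
          exact_mod_cast h2 u
      _ < ∑ _u ∈ U, (A.card : ℝ) * X.card := sum_lt_sum_of_nonempty hne fun u _ => hcon u
      _ = U.card * ((A.card : ℝ) * X.card) := by rw [sum_const, nsmul_eq_mul]
      _ ≤ K * ((A.card : ℝ) * X.card) := mul_le_mul_of_nonneg_right hU (by positivity)
      _ = K * ((A ×ˢ X).card : ℝ) := by rw [card_product]; push_cast; rfl
  exact lt_irrefl _ h3

end Pool.Agent.TH858.GP
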