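import Mathlib
import Pool.Agent.TH858.GP.Dense

/-!
# Dense subsets of proper progressions: the main theorem
-/

set_option autoImplicit false

namespace Pool.Agent.TH858.GP

open Finset
open scoped Pointwise

variable {N : ℕ} [NeZero N]

omit [NeZero N] in
lemma box_mono {d : ℕ} (L L' : Fin d → ℕ) (h : ∀ i, L' i ≤ L i) : (box L' : Set (Fin d → ℤ)) ⊆ box L := by
  intro m hm
  rw [mem_coe, mem_box] at hm ⊢
  intro i
  have h1 : ((L' i : ℕ) : ℤ) ≤ L i := by exact_mod_cast h i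
  exact (hm i).trans h1

/-- The main estimate for the spectrum of a dense subset of a short progression. -/
lemma spec_small {d : ℕ} (a : Fin d → ZMod N) (L₂ : Fin d → ℕ) (hinj : Set.InjOn (ev a) (box L₂))
    (R δ : ℝ) (hR : (d : ℝ) + 2 ≤ R) (hδ : 0 < δ) (hδR : 1 ≤ δ * R) (ρ : ℕ) (hρR : R ≤ ρ) (L₃ : Fin d → ℕ)
    (hL : ∀ i, 64 * ρ ^ 3 * L₃ i ≤ L₂ i) (Λ : Finset (ZMod N)) (γ : ZMod N)
    (hγ : γ ∈ Λ ∨ ∃ l ∈ Λ, δ ^ 2 / 32 * (XX a L₂).card < ‖∑ y ∈ XX a L₂, ψ ((γ - l) * y)‖)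
    (x : ZMod N) (hx : ∀ l ∈ Λ, CB.nn (l * x) ≤ 1 / (8 * R)) (hxm : x ∈ XX a L₃) :
    1 / 2 ≤ (ψ (γ * x)).re := by
  have hd0 : (0 : ℝ) ≤ d := Nat.cast_nonneg d
  have hR2 : 2 ≤ R := by linarith
  have hρ0 : (0 : ℝ) < ρ := by linarith
  have hsmall : ∀ l ∈ Λ, ‖ψ (l * x) - 1‖ ≤ 1 / 2 := by
    intro l hl
    refine (norm_ψ_sub_one_le _).trans ?_
    have h1 := hx l hl
    have h2 : (1 : ℝ) / (8 * R) ≤ 1 / 16 := by
      apply one_div_le_one_div_of_le (by norm_num)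
      linarith
    have h3 := Real.pi_lt_four
    have h4 := Real.pi_pos
    nlinarith
  apply re_ge_half
  rcases hγ with hγ | ⟨l, hl, hl2⟩
  · exact (hsmall γ hγ).trans (by norm_num)
  · have h1 : γ * x = l * x + (γ - l) * x := by ring
    rw [h1]
    refine (norm_ψ_sub_one_add _ _).trans ?_
    have h2 := hsmall l hl
    unfold XX at hxm
    rw [mem_image] at hxm
    obtain ⟨m, hm, hmx⟩ := hxm
    rw [mem_box] at hm
    have hm' : ∀ i, 128 * (ρ : ℝ) ^ 3 * |(m i : ℝ)| ≤ 2 * L₂ i := by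
      intro i
      have h3 : |(m i : ℝ)| ≤ L₃ i := by exact_mod_cast hm i
      have h4 : 64 * (ρ : ℝ) ^ 3 * L₃ i ≤ L₂ i := by exact_mod_cast hL i
      have h5 : 128 * (ρ : ℝ) ^ 3 * |(m i : ℝ)| ≤ 128 * (ρ : ℝ) ^ 3 * L₃ i :=
        mul_le_mul_of_nonneg_left h3 (by positivity)
      linarith
    have hρ1 : (1 : ℝ) ≤ 128 * (ρ : ℝ) ^ 3 := by
      have : (1 : ℝ) ≤ (ρ : ℝ) ^ 3 := one_le_pow₀ (by linarith)
      linarith
    have h3 := shift_prog a L₂ hinj (γ - l) m (fun i => by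
      have h4 := hm' i
      have h5 : |(m i : ℝ)| ≤ 2 * L₂ i := by
        have := abs_nonneg (m i : ℝ)
        nlinarith
      exact_mod_cast h5)
    rw [hmx] at h3
    have h4 : ∑ i, |(m i : ℝ)| / (2 * L₂ i + 1) ≤ d * (1 / (128 * (ρ : ℝ) ^ 3)) := by
      calc ∑ i, |(m i : ℝ)| / (2 * L₂ i + 1) ≤ ∑ _i : Fin d, 1 / (128 * (ρ : ℝ) ^ 3) := by
            refine sum_le_sum fun i _ => ?_
            rw [div_le_div_iff₀ (by positivity) (by positivity)]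
            have := hm' i
            linarith
        _ = d * (1 / (128 * (ρ : ℝ) ^ 3)) := by simp
    have hXpos : (0 : ℝ) < (XX a L₂).card := by
      have : (0 : Fin d → ℤ) ∈ box L₂ := by rw [mem_box]; intro i; simp
      exact_mod_cast card_pos.mpr ⟨_, mem_image_of_mem (ev a) this⟩
    obtain ⟨E, hE⟩ : ∃ E : ℝ, E = ‖ψ ((γ - l) * x) - 1‖ := ⟨_, rfl⟩
    rw [← hE] at h3 ⊢
    have hE0 : 0 ≤ E := by rw [hE]; exact norm_nonneg _
    have h5 : δ ^ 2 / 32 * (XX a L₂).card * E ≤ 2 * (XX a L₂).card * (d * (1 / (128 * (ρ : ℝ) ^ 3))) := by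
      calc δ ^ 2 / 32 * (XX a L₂).card * E ≤ ‖∑ y ∈ XX a L₂, ψ ((γ - l) * y)‖ * E :=
            mul_le_mul_of_nonneg_right hl2.le hE0
        _ ≤ 2 * (XX a L₂).card * ∑ i, |(m i : ℝ)| / (2 * L₂ i + 1) := h3
        _ ≤ _ := mul_le_mul_of_nonneg_left h4 (by positivity)
    have h6 : δ ^ 2 / 32 * E ≤ 2 * (d * (1 / (128 * (ρ : ℝ) ^ 3))) := by
      have e1 : δ ^ 2 / 32 * (XX a L₂).card * E = (δ ^ 2 / 32 * E) * (XX a L₂).card := by ring
      have e2 : 2 * ((XX a L₂).card : ℝ) * (d * (1 / (128 * (ρ : ℝ) ^ 3))) =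
          (2 * (d * (1 / (128 * (ρ : ℝ) ^ 3)))) * (XX a L₂).card := by ring
      rw [e1, e2] at h5
      exact le_of_mul_le_mul_right h5 hXpos
    have h7 : 2 * ((d : ℝ) * (1 / (128 * (ρ : ℝ) ^ 3))) ≤ 1 / (64 * (ρ : ℝ) ^ 2) := by
      rw [← mul_assoc, mul_one_div, div_le_div_iff₀ (by positivity) (by positivity)]
      have : (d : ℝ) ≤ ρ := by linarith
      calc 2 * (d : ℝ) * (64 * (ρ : ℝ) ^ 2) ≤ 2 * (ρ : ℝ) * (64 * (ρ : ℝ) ^ 2) := by gcongr
        _ = 1 * (128 * (ρ : ℝ) ^ 3) := by ring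
    have h8 : δ ^ 2 * E * (ρ : ℝ) ^ 2 ≤ 1 / 2 := by
      have h9 : δ ^ 2 / 32 * E ≤ 1 / (64 * (ρ : ℝ) ^ 2) := h6.trans h7
      rw [le_div_iff₀ (by positivity)] at h9
      nlinarith
    have h9 : 1 ≤ (δ * ρ) ^ 2 := by
      have : 1 ≤ δ * ρ := hδR.trans (mul_le_mul_of_nonneg_left hρR hδ.le)
      nlinarith
    have h10 : E ≤ δ ^ 2 * E * (ρ : ℝ) ^ 2 := by
      have : δ ^ 2 * E * (ρ : ℝ) ^ 2 = E * (δ * ρ) ^ 2 := by ring
      rw [this]
      nlinarith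
    linarith

/-- The number of almost orthogonal characters in the spectrum. -/
lemma card_fam (A₂ X Xu Λ : Finset (ZMod N)) (u : ZMod N) (hXu : Xu = X.image fun z => u + z) (hsub : A₂ ⊆ Xu)
    (δ : ℝ) (hδ : 0 < δ) (hX : X.Nonempty) (hdens : δ / 2 * X.card ≤ A₂.card)
    (hΛ1 : ∀ l ∈ Λ, δ / 2 / 4 * (A₂.card : ℝ) ^ 2 ≤ wt A₂ l)
    (hΛ2 : ∀ l ∈ Λ, ∀ l' ∈ Λ, l ≠ l' → ‖∑ y ∈ X, ψ ((l - l') * y)‖ ≤ δ ^ 2 / 32 * X.card) :
    (Λ.card : ℝ) ≤ 32 / δ ^ 2 := by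
  classical
  have hXp : (0 : ℝ) < X.card := by exact_mod_cast hX.card_pos
  have hA₂p : (0 : ℝ) < A₂.card := lt_of_lt_of_le (by positivity) hdens
  have hXucard : Xu.card = X.card := by
    rw [hXu]
    exact card_image_of_injective _ (add_right_injective u)
  have h1 := bessel A₂ Xu Λ hsub (δ ^ 2 / 32) (by positivity) (fun l hl l' hl' hne => by
    rw [hXucard, hXu, norm_hat_translate]
    exact hΛ2 l hl l' hl' hne)
  rw [hXucard] at h1
  have h2 : (Λ.card : ℝ) * (δ / 2 / 4 * (A₂.card : ℝ) ^ 2) ≤ ∑ l ∈ Λ, wt A₂ l := by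
    rw [← nsmul_eq_mul]
    exact card_nsmul_le_sum _ _ _ hΛ1
  have h3 := h2.trans h1
  have h4 : (Λ.card : ℝ) * (δ / 8 * A₂.card) ≤ X.card * (1 + δ ^ 2 / 32 * Λ.card) := by
    have e1 : (Λ.card : ℝ) * (δ / 2 / 4 * (A₂.card : ℝ) ^ 2) = ((Λ.card : ℝ) * (δ / 8 * A₂.card)) * A₂.card := by ring
    have e2 : (A₂.card : ℝ) * X.card * (1 + δ ^ 2 / 32 * Λ.card) =
        (X.card * (1 + δ ^ 2 / 32 * Λ.card)) * A₂.card := by ring
    rw [e1, e2] at h3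
    exact le_of_mul_le_mul_right h3 hA₂p
  have h5 : (Λ.card : ℝ) * (δ / 8 * (δ / 2)) * X.card ≤ (1 + δ ^ 2 / 32 * Λ.card) * X.card := by
    calc (Λ.card : ℝ) * (δ / 8 * (δ / 2)) * X.card = (Λ.card : ℝ) * (δ / 8 * (δ / 2 * X.card)) := by ring
      _ ≤ (Λ.card : ℝ) * (δ / 8 * A₂.card) := by
          refine mul_le_mul_of_nonneg_left ?_ (Nat.cast_nonneg _)
          exact mul_le_mul_of_nonneg_left hdens (by positivity)
      _ ≤ X.card * (1 + δ ^ 2 / 32 * Λ.card) := h4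
      _ = _ := mul_comm _ _
  have h6 := le_of_mul_le_mul_right h5 hXp
  rw [le_div_iff₀ (by positivity)]
  nlinarith

/-- A set that is dense on a translate of a proper progression: `2A - 2A` contains a Bohr set of small dimension. -/
theorem dense {d : ℕ} (a : Fin d → ZMod N) (L : Fin d → ℕ) (hinj : Set.InjOn (ev a) (box L))
    (R δ : ℝ) (hR : (d : ℝ) + 2 ≤ R) (hδ : 0 < δ) (hδR : 1 ≤ δ * R)
    (A : Finset (ZMod N)) (t : ZMod N) (hA : ∀ y ∈ A, y - t ∈ XX a L) (hdens : δ * (XX a L).card ≤ A.card) :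
    ∃ Γ : Finset (ZMod N), (Γ.card : ℝ) ≤ 295 * d + 1 + 5 * (Real.log (N / (XX a L).card) / Real.log R) +
        32 / δ ^ 2 ∧
      ∀ x : ZMod N, (∀ g ∈ Γ, CB.nn (g * x) ≤ 1 / (8 * R)) →
        ∃ a₁ ∈ A, ∃ a₂ ∈ A, ∃ a₃ ∈ A, ∃ a₄ ∈ A, x = a₁ + a₂ - a₃ - a₄ := by
  classical
  have hNpos : (0 : ℝ) < N := Nat.cast_pos.mpr (NeZero.pos N)
  have hd0 : (0 : ℝ) ≤ d := Nat.cast_nonneg d
  have hR2 : 2 ≤ R := by linarith
  have hR0 : 0 < R := by linarith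
  have hlogR : 0 < Real.log R := Real.log_pos (by linarith)
  obtain ⟨ρ, hρ⟩ : ∃ ρ : ℕ, ρ = ⌈R⌉₊ := ⟨_, rfl⟩
  have hρR : R ≤ ρ := by rw [hρ]; exact Nat.le_ceil R
  have hρR2 : (ρ : ℝ) ≤ R + 1 := by rw [hρ]; exact (Nat.ceil_lt_add_one hR0.le).le
  have hρ2 : (2 : ℝ) ≤ ρ := by linarith
  have hρ2n : 2 ≤ ρ := by exact_mod_cast hρ2
  have hdρ : d ≤ ρ := by
    have : (d : ℝ) ≤ ρ := by linarith
    exact_mod_cast this
  obtain ⟨L₂, hL₂⟩ : ∃ L₂ : Fin d → ℕ, L₂ = fun i => L i / (2 * ρ) := ⟨_, rfl⟩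
  obtain ⟨L₃, hL₃⟩ : ∃ L₃ : Fin d → ℕ, L₃ = fun i => L₂ i / (64 * ρ ^ 3) := ⟨_, rfl⟩
  have hL₂1 : ∀ i, 2 * ρ * L₂ i ≤ L i := fun i => by rw [hL₂]; exact Nat.mul_div_le _ _
  have hL₂2 : ∀ i, L i < 2 * ρ * (L₂ i + 1) := fun i => by
    rw [hL₂]; exact Nat.lt_mul_div_succ _ (by positivity)
  have hL₃1 : ∀ i, 64 * ρ ^ 3 * L₃ i ≤ L₂ i := fun i => by rw [hL₃]; exact Nat.mul_div_le _ _
  have hL₃2 : ∀ i, L₂ i < 64 * ρ ^ 3 * (L₃ i + 1) := fun i => by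
    rw [hL₃]; exact Nat.lt_mul_div_succ _ (by positivity)
  have hL₂le : ∀ i, L₂ i ≤ L i := fun i => by
    have h1 := hL₂1 i
    have h2 : L₂ i ≤ 2 * ρ * L₂ i := Nat.le_mul_of_pos_left _ (by positivity)
    omega
  have hL₃le : ∀ i, L₃ i ≤ L₂ i := fun i => by
    have h1 := hL₃1 i
    have h2 : L₃ i ≤ 64 * ρ ^ 3 * L₃ i := Nat.le_mul_of_pos_left _ (by positivity)
    omega
  have hinj₂ : Set.InjOn (ev a) (box L₂) := hinj.mono (box_mono L L₂ hL₂le)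
  have hinj₃ : Set.InjOn (ev a) (box L₃) := hinj₂.mono (box_mono L₂ L₃ hL₃le)
  have hXne : ∀ M : Fin d → ℕ, (XX a M).Nonempty := fun M => by
    have : (0 : Fin d → ℤ) ∈ box M := by rw [mem_box]; intro i; simp
    exact ⟨_, mem_image_of_mem (ev a) this⟩
  have hPpos : (0 : ℝ) < (XX a L).card := by exact_mod_cast (hXne L).card_pos
  have hX₂pos : (0 : ℝ) < (XX a L₂).card := by exact_mod_cast (hXne L₂).card_pos
  have hX₃pos : (0 : ℝ) < (XX a L₃).card := by exact_mod_cast (hXne L₃).card_pos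
  have hApos : (0 : ℝ) < A.card := lt_of_lt_of_le (by positivity) hdens
  have hAne : A.Nonempty := by
    rw [← card_pos]
    exact_mod_cast hApos
  have hsum := card_sum_le a L L₂ hinj ρ (by omega) hdρ hL₂1
  -- a dense translate
  obtain ⟨u, hu⟩ := exists_dense_translate A (XX a L₂) (2 * (XX a L).card) (by positivity) hAne (hXne L₂) (by
    refine le_trans ?_ hsum
    have h1 : ((A ×ˢ XX a L₂).image fun p => p.1 - p.2) ⊆ (XX a (fun i => L i + L₂ i)).image fun z => t + z := by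
      intro z hz
      rw [mem_image] at hz
      obtain ⟨p, hp, rfl⟩ := hz
      rw [mem_product] at hp
      rw [mem_image]
      refine ⟨p.1 - t - p.2, sub_mem_XX a L L₂ _ _ (hA _ hp.1) hp.2, by ring⟩
    have h2 := (card_le_card h1).trans card_image_le
    exact_mod_cast h2)
  obtain ⟨A₂, hA₂⟩ : ∃ A₂ : Finset (ZMod N), A₂ = A.filter fun y => y - u ∈ XX a L₂ := ⟨_, rfl⟩
  rw [← hA₂] at hu
  have hA₂sub : A₂ ⊆ A := by rw [hA₂]; exact filter_subset _ _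
  have hA₂dens : δ / 2 * (XX a L₂).card ≤ A₂.card := by
    have h1 : δ * (XX a L).card * (XX a L₂).card ≤ 2 * (XX a L).card * A₂.card :=
      (mul_le_mul_of_nonneg_right hdens hX₂pos.le).trans hu
    have h2 : (δ / 2 * (XX a L₂).card) * (2 * (XX a L).card) ≤ A₂.card * (2 * (XX a L).card) := by
      calc (δ / 2 * (XX a L₂).card) * (2 * (XX a L).card) = δ * (XX a L).card * (XX a L₂).card := by ring
        _ ≤ _ := h1
        _ = _ := by ring
    exact le_of_mul_le_mul_right h2 (by positivity)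
  have hA₂pos : (0 : ℝ) < A₂.card := lt_of_lt_of_le (by positivity) hA₂dens
  have hA₂ne : A₂.Nonempty := by
    rw [← card_pos]
    exact_mod_cast hA₂pos
  -- the energy
  have hen : δ / 2 * (A.card * (A₂.card : ℝ) ^ 2) ≤ quad A A₂ 0 := by
    have h1 := energy A A₂
    have h2 : ((A + A₂).card : ℝ) ≤ 2 * (XX a L).card := by
      refine le_trans ?_ hsum
      have h3 : A + A₂ ⊆ (XX a (fun i => L i + L₂ i)).image fun z => (t + u) + z := by
        intro z hz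
        rw [mem_add] at hz
        obtain ⟨y, hy, y', hy', rfl⟩ := hz
        rw [hA₂, mem_filter] at hy'
        rw [mem_image]
        exact ⟨(y - t) + (y' - u), add_mem_XX a L L₂ _ _ (hA _ hy) hy'.2, by ring⟩
      have h4 := (card_le_card h3).trans card_image_le
      exact_mod_cast h4
    have h3 : ((A.card : ℝ) * A₂.card) ^ 2 * (δ / 2) ≤ A.card * quad A A₂ 0 := by
      calc ((A.card : ℝ) * A₂.card) ^ 2 * (δ / 2) ≤ ((2 * (XX a L).card) * quad A A₂ 0) * (δ / 2) := by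
            refine mul_le_mul_of_nonneg_right (h1.trans ?_) (by positivity)
            exact mul_le_mul_of_nonneg_right h2 (Nat.cast_nonneg _)
        _ = (δ * (XX a L).card) * quad A A₂ 0 := by ring
        _ ≤ A.card * quad A A₂ 0 := mul_le_mul_of_nonneg_right hdens (Nat.cast_nonneg _)
    have h4 : (δ / 2 * (A.card * (A₂.card : ℝ) ^ 2)) * A.card ≤ (quad A A₂ 0 : ℝ) * A.card := by
      calc (δ / 2 * (A.card * (A₂.card : ℝ) ^ 2)) * A.card = ((A.card : ℝ) * A₂.card) ^ 2 * (δ / 2) := by ring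
        _ ≤ _ := h3
        _ = _ := mul_comm _ _
    exact le_of_mul_le_mul_right h4 hApos
  -- the characters
  obtain ⟨Λ, hΛS, hΛ1, hΛ2⟩ := exists_maxfam (XX a L₂)
    (univ.filter fun g => δ / 2 / 4 * (A₂.card : ℝ) ^ 2 ≤ wt A₂ g) (δ ^ 2 / 32 * (XX a L₂).card)
  have hΛcard := card_fam A₂ (XX a L₂) _ Λ u rfl (by
    intro y hy
    rw [hA₂, mem_filter] at hy
    rw [mem_image]
    exact ⟨y - u, hy.2, by ring⟩) δ hδ (hXne L₂) hA₂dens
    (fun l hl => by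
      have := hΛS hl
      rw [mem_filter] at this
      exact this.2) hΛ1
  obtain ⟨Γ₀, hΓ₀, hΓ₀'⟩ := general a L₃ hinj₃ R hR
  refine ⟨Γ₀ ∪ Λ, ?_, ?_⟩
  · -- the number of frequencies
    have hcard : ((XX a L).card : ℝ) ≤ (256 * (ρ : ℝ) ^ 4) ^ d * (XX a L₃).card := by
      have h1 : (XX a L).card = ∏ i, (2 * L i + 1) := by
        unfold XX
        rw [card_image_of_injOn hinj, card_box]
      have h2 : (XX a L₃).card = ∏ i, (2 * L₃ i + 1) := by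
        unfold XX
        rw [card_image_of_injOn hinj₃, card_box]
      have h3 : (256 * (ρ : ℝ) ^ 4) ^ d = ∏ _i : Fin d, (256 * (ρ : ℝ) ^ 4) := by simp
      rw [h1, h2, h3]
      push_cast
      rw [← prod_mul_distrib]
      refine prod_le_prod (fun i _ => by positivity) fun i _ => ?_
      have h4 : (L i : ℝ) + 1 ≤ 2 * ρ * (L₂ i + 1) := by exact_mod_cast hL₂2 i
      have h5 : (L₂ i : ℝ) + 1 ≤ 64 * ρ ^ 3 * (L₃ i + 1) := by exact_mod_cast hL₃2 i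
      have h6 : (L i : ℝ) + 1 ≤ 2 * ρ * (64 * ρ ^ 3 * (L₃ i + 1)) :=
        h4.trans (mul_le_mul_of_nonneg_left h5 (by positivity))
      have h7 : 2 * (ρ : ℝ) * (64 * ρ ^ 3 * (L₃ i + 1)) = 128 * (ρ : ℝ) ^ 4 * (L₃ i + 1) := by ring
      rw [h7] at h6
      have h8 : 0 ≤ 128 * (ρ : ℝ) ^ 4 * L₃ i := by positivity
      nlinarith
    have hlogρ : Real.log (256 * (ρ : ℝ) ^ 4) ≤ 24 * Real.log R := by
      have h1 : 256 * (ρ : ℝ) ^ 4 ≤ R ^ 24 := by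
        have h5 : (256 : ℝ) ≤ (ρ : ℝ) ^ 8 := by
          calc (256 : ℝ) = 2 ^ 8 := by norm_num
            _ ≤ (ρ : ℝ) ^ 8 := pow_le_pow_left₀ (by norm_num) hρ2 8
        have h6 : (ρ : ℝ) ≤ R ^ 2 := by nlinarith
        calc 256 * (ρ : ℝ) ^ 4 ≤ (ρ : ℝ) ^ 8 * (ρ : ℝ) ^ 4 := by gcongr
          _ = (ρ : ℝ) ^ 12 := by ring
          _ ≤ (R ^ 2) ^ 12 := pow_le_pow_left₀ (by linarith) h6 12
          _ = R ^ 24 := by ring
      have h2 := Real.log_le_log (by positivity) h1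
      rw [Real.log_pow] at h2
      push_cast at h2
      exact h2
    have hlog : Real.log (N / (XX a L₃).card) ≤ Real.log (N / (XX a L).card) + 24 * d * Real.log R := by
      have h1 : (N : ℝ) / (XX a L₃).card ≤ (N / (XX a L).card) * (256 * (ρ : ℝ) ^ 4) ^ d := by
        rw [div_mul_eq_mul_div, div_le_div_iff₀ hX₃pos hPpos, mul_assoc]
        exact mul_le_mul_of_nonneg_left hcard hNpos.le
      have h2 := Real.log_le_log (by positivity) h1
      rw [Real.log_mul (by positivity) (by positivity), Real.log_pow] at h2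
      have h3 : (d : ℝ) * Real.log (256 * (ρ : ℝ) ^ 4) ≤ d * (24 * Real.log R) := mul_le_mul_of_nonneg_left hlogρ hd0
      linarith
    have h1 : Real.log (N / (XX a L₃).card) / Real.log R ≤ Real.log (N / (XX a L).card) / Real.log R + 24 * d := by
      rw [div_add' _ _ _ hlogR.ne']
      exact div_le_div_of_nonneg_right hlog hlogR.le
    have h2 : ((Γ₀ ∪ Λ).card : ℝ) ≤ Γ₀.card + Λ.card := by exact_mod_cast card_union_le Γ₀ Λ
    linarith
  · intro x hx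
    have hx₃ : x ∈ XX a L₃ := hΓ₀' x fun g hg => hx g (mem_union_left _ hg)
    have hq := bogo A A₂ (δ / 2) (by positivity) hAne hA₂ne hen x (fun g hg =>
      spec_small a L₂ hinj₂ R δ hR hδ hδR ρ hρR L₃ hL₃1 Λ g
        (hΛ2 g (by rw [mem_filter]; exact ⟨mem_univ _, hg⟩)) x (fun l hl => hx l (mem_union_right _ hl)) hx₃)
    obtain ⟨a₁, h1, a₂, h2, a₃, h3, a₄, h4, h5⟩ := mem_of_quad A A₂ x hq
    exact ⟨a₁, h1, a₂, hA₂sub h2, a₃, h3, a₄, hA₂sub h4, h5⟩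

end Pool.Agent.TH858.GP
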